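import Pool.Agent.Helper43.TW.Stage
import Pool.Agent.Helper43.CQ.Main

/-!
# Hamilton-connected and Hamilton-laceable subgroups
-/

set_option autoImplicit false

namespace Pool.Agent.Helper43.TW

open Pool.Agent.Helper43.CQ Q238.RS Pool.Agent.Q112.CH

variable {G : Type*} [Group G]

theorem hamPath_of_HP [Finite G] {A : Set G} {K : Subgroup G} {x y : G} (hx : x ∈ K)
    (h : HP (cadj A) (K : Set G) 1 (x⁻¹ * y)) : HamPath A K x y := by
  classical
  have := Fintype.ofFinite G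
  have h1 := HP_coset h
  have hset : {v | x⁻¹ * v ∈ K} = (K : Set G) := by
    ext v
    show x⁻¹ * v ∈ K ↔ v ∈ K
    constructor
    · intro hv
      have := K.mul_mem hx hv
      rwa [mul_inv_cancel_left] at this
    · intro hv
      exact K.mul_mem (K.inv_mem hx) hv
  rw [hset] at h1
  obtain ⟨l, h2, h3, h4, h5, h6⟩ := h1
  have hlen : l.length = Nat.card K := by
    have h7 : ((l.toFinset : Finset G) : Set G) = (K : Set G) := by
      ext v
      rw [Finset.mem_coe, List.mem_toFinset, h3]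
    have h8 : (K : Set G).ncard = Nat.card K := rfl
    rw [← h8, ← h7, Set.ncard_coe_finset, List.toFinset_card_of_nodup h2]
  have hpos : 0 < l.length := by
    rw [hlen]
    exact Nat.card_pos
  have hget : ∀ i, ∀ hi : i < l.length, l.getD i x = l[i] := fun i hi =>
    List.getD_eq_getElem _ _ hi
  refine ⟨fun i => l.getD i x, ?_, ?_, ?_, ?_, ?_⟩
  · show l.getD 0 x = x
    rw [hget 0 hpos]
    rw [List.head?_eq_getElem?, List.getElem?_eq_getElem hpos] at h5
    exact Option.some.inj h5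
  · show l.getD (Nat.card K - 1) x = y
    rw [← hlen, hget _ (by omega)]
    rw [List.getLast?_eq_getElem?, List.getElem?_eq_getElem (by omega)] at h6
    exact Option.some.inj h6
  · intro i hi
    show l.getD i x ∈ K
    rw [hget i (by omega)]
    exact (h3 _).1 (List.getElem_mem _)
  · intro i hi
    show (l.getD i x)⁻¹ * l.getD (i + 1) x ∈ A
    rw [hget i (by omega), hget (i + 1) (by omega)]
    exact List.isChain_iff_getElem.1 h4 i (by omega)
  · intro i j hi hj hij
    have hij' : l.getD i x = l.getD j x := hij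
    rw [hget i (by omega), hget j (by omega)] at hij'
    exact (List.Nodup.getElem_inj_iff h2).1 hij'

theorem HP_of_hamPath [Finite G] {A : Set G} {K : Subgroup G} {y : G}
    (h : HamPath A K 1 y) : HP (cadj A) (K : Set G) 1 y := by
  classical
  have := Fintype.ofFinite G
  obtain ⟨w, h1, h2, h3, h4, h5⟩ := h
  have hpos : 0 < Nat.card K := Nat.card_pos
  refine HP.seq w (Nat.card K - 1) (fun i j hi hj => h5 i j (by omega) (by omega))
    (fun i hi => h4 i (by omega)) ?_ h1 h2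
  have himg : (Finset.range (Nat.card K)).image w = (K : Set G).toFinset := by
    apply Finset.eq_of_subset_of_card_le
    · intro v hv
      obtain ⟨i, hi, rfl⟩ := Finset.mem_image.1 hv
      rw [Set.mem_toFinset]
      exact h3 i (Finset.mem_range.1 hi)
    · rw [Finset.card_image_of_injOn, Finset.card_range]
      · have h6 : (K : Set G).ncard = Nat.card K := rfl
        rw [← h6, Set.ncard_eq_toFinset_card']
      · intro i hi j hj hij
        exact h5 i j (Finset.mem_range.1 hi) (Finset.mem_range.1 hj) hij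
  intro v
  rw [← Set.mem_toFinset, ← himg, Finset.mem_image]
  constructor
  · rintro ⟨i, hi, rfl⟩
    rw [Finset.mem_range] at hi
    exact ⟨i, by omega, rfl⟩
  · rintro ⟨i, hi, rfl⟩
    exact ⟨i, Finset.mem_range.2 (by omega), rfl⟩

/-- the elements different from `1` -/
def E1 (G : Type*) [Group G] : Set G := {z | z ≠ 1}

/-- the elements at which `χ` is `-1` -/
def E2 (χ : G →* ℤˣ) : Set G := {z | χ z = -1}

theorem good_iff_connected [Finite G] {A : Set G} {K : Subgroup G} :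
    Good A (E1 G) K ↔ HamConnected A K := by
  constructor
  · intro h x hx y hy hxy
    refine hamPath_of_HP hx (h _ (K.mul_mem (K.inv_mem hx) hy) fun h1 => hxy ?_)
    exact inv_mul_eq_one.1 h1
  · intro h y hy hy1
    exact HP_of_hamPath (h 1 K.one_mem y hy (Ne.symm hy1))

theorem units_ne (a b : ℤˣ) : a ≠ b ↔ a⁻¹ * b = -1 := by
  rcases Int.units_eq_one_or a with rfl | rfl <;> rcases Int.units_eq_one_or b with rfl | rfl <;>
    decide

theorem good_iff_laceable [Finite G] {A : Set G} {χ : G →* ℤˣ} {K : Subgroup G} :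
    Good A (E2 χ) K ↔ Laceable A χ K := by
  constructor
  · intro h x hx y hy hxy
    refine hamPath_of_HP hx (h _ (K.mul_mem (K.inv_mem hx) hy) ?_)
    show χ (x⁻¹ * y) = -1
    rw [map_mul, map_inv]
    exact (units_ne _ _).1 hxy
  · intro h y hy hy1
    refine HP_of_hamPath (h 1 K.one_mem y hy ?_)
    rw [units_ne, map_one, inv_one, one_mul]
    exact hy1

theorem e1_conj (g : G) : ∀ b ∈ E1 G, g⁻¹ * b * g ∈ E1 G := by
  intro b hb h
  apply hb
  have h1 : b = g * (g⁻¹ * b * g) * g⁻¹ := by group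
  rw [h1, h, mul_one, mul_inv_cancel]

theorem e2_conj (χ : G →* ℤˣ) (g : G) : ∀ b ∈ E2 χ, g⁻¹ * b * g ∈ E2 χ := by
  intro b hb
  show χ (g⁻¹ * b * g) = -1
  rw [map_mul, map_mul, map_inv, mul_comm, mul_inv_cancel_left]
  exact hb

theorem e1_step [Finite G] {H : Subgroup G} (h3 : 3 ≤ Nat.card H) (z a : G) :
    ∃ n ∈ H, n ∈ E1 G ∧ (n * a)⁻¹ * z ∈ E1 G := by
  obtain ⟨z₁, h1, z₂, h2, h4, h5, h6⟩ := two_of_three h3 1
  by_cases h : z₁ = z * a⁻¹
  · refine ⟨z₂, h2, h6, fun h7 => h4 ?_⟩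
    rw [inv_mul_eq_one] at h7
    rw [h, ← h7, mul_inv_cancel_right]
  · refine ⟨z₁, h1, h5, fun h7 => h ?_⟩
    rw [inv_mul_eq_one] at h7
    rw [← h7, mul_inv_cancel_right]

theorem e2_step {A : Set G} {χ : G →* ℤˣ} (hχ : ∀ a ∈ A, χ a = -1) {H : Subgroup G}
    (hH : ∃ b ∈ H, χ b = -1) {z a : G} (hz : z ∈ E2 χ) (ha : a ∈ A) :
    ∃ n ∈ H, n ∈ E2 χ ∧ (n * a)⁻¹ * z ∈ E2 χ := by
  obtain ⟨b, hb, hb1⟩ := hH
  refine ⟨b, hb, hb1, ?_⟩
  show χ ((b * a)⁻¹ * z) = -1
  have hz' : χ z = -1 := hz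
  rw [map_mul, map_inv, map_mul, hb1, hχ a ha, hz']
  decide

theorem wide_sc [Finite G] {K : Subgroup G} {a : G} (h : Wide K a) : SC (E1 G) K a := by
  intro x y u hxu hxy
  have h1 : ∃ s ∈ {s | s ∈ K ∧ a⁻¹ * s * a ∈ K}, s ≠ u⁻¹ * x ∧ s ≠ u⁻¹ * y * a⁻¹ := by
    by_contra hno
    push Not at hno
    have h2 : {s | s ∈ K ∧ a⁻¹ * s * a ∈ K} ⊆ {u⁻¹ * x, u⁻¹ * y * a⁻¹} := by
      intro s hs
      by_cases h3 : s = u⁻¹ * x
      · exact Or.inl h3
      · exact Or.inr (hno s hs h3)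
    have h3 := Set.ncard_le_ncard h2 (Set.toFinite _)
    have h4 : ({u⁻¹ * x, u⁻¹ * y * a⁻¹} : Set G).ncard ≤ 2 := by
      refine (Set.ncard_insert_le _ _).trans ?_
      rw [Set.ncard_singleton]
    have h5 : 3 ≤ {s | s ∈ K ∧ a⁻¹ * s * a ∈ K}.ncard := h
    omega
  obtain ⟨s, ⟨hs, hsa⟩, h2, h3⟩ := h1
  refine ⟨s, hs, hsa, fun h4 => h2 ?_, fun h4 => h3 ?_⟩
  · rw [inv_mul_eq_one] at h4
    rw [h4, inv_mul_cancel_left]
  · rw [inv_mul_eq_one] at h4
    rw [← h4]
    group

theorem mixed_sc {A : Set G} {χ : G →* ℤˣ} (hχ : ∀ a ∈ A, χ a = -1) {K : Subgroup G} {a : G}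
    (ha : a ∈ A) (h : Mixed χ K a) : SC (E2 χ) K a := by
  intro x y u hxu hxy
  obtain ⟨s, hs, hsa, hs1⟩ := h
  have hxy' : χ (x⁻¹ * y) = -1 := hxy
  rw [map_mul, map_inv] at hxy'
  by_cases hu : χ (x⁻¹ * u) = -1
  · refine ⟨1, K.one_mem, by rw [mul_one, inv_mul_cancel]; exact K.one_mem, ?_, ?_⟩
    · show χ (x⁻¹ * (u * 1)) = -1
      rw [mul_one]
      exact hu
    · show χ ((u * 1 * a)⁻¹ * y) = -1
      rw [map_mul, map_inv] at hu
      rw [mul_one, map_mul, map_inv, map_mul, hχ a ha]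
      rcases Int.units_eq_one_or (χ x) with h1 | h1 <;> rcases Int.units_eq_one_or (χ y) with h2 | h2 <;>
        rcases Int.units_eq_one_or (χ u) with h3 | h3 <;> rw [h1, h2] at hxy' <;>
        rw [h1, h3] at hu <;> rw [h2, h3] <;> revert hxy' hu <;> decide
  · refine ⟨s, hs, hsa, ?_, ?_⟩
    · show χ (x⁻¹ * (u * s)) = -1
      rw [map_mul, map_inv] at hu
      rw [map_mul, map_inv, map_mul, hs1]
      rcases Int.units_eq_one_or (χ x) with h1 | h1 <;>
        rcases Int.units_eq_one_or (χ u) with h3 | h3 <;>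
        rw [h1, h3] at hu <;> rw [h1, h3] <;> revert hu <;> decide
    · show χ ((u * s * a)⁻¹ * y) = -1
      rw [map_mul, map_inv] at hu
      rw [map_mul, map_inv, map_mul, map_mul, hs1, hχ a ha]
      rcases Int.units_eq_one_or (χ x) with h1 | h1 <;> rcases Int.units_eq_one_or (χ y) with h2 | h2 <;>
        rcases Int.units_eq_one_or (χ u) with h3 | h3 <;> rw [h1, h2] at hxy' <;>
        rw [h1, h3] at hu <;> rw [h2, h3] <;> revert hxy' hu <;> decide

/-- Hamilton-connectedness passes up towers -/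
theorem tower_connected [Finite G] {A : Set G} (hs : ∀ a ∈ A, a⁻¹ ∈ A) {H K : Subgroup G}
    (h3 : 3 ≤ Nat.card H) (hH : HamConnected A H) (hT : Tower A Wide H K) :
    HamConnected A K := by
  rw [← good_iff_connected] at hH ⊢
  exact hT.good hs (fun h => h rfl) e1_conj (fun a _ h => h) (fun a _ b _ c _ h => h) h3
    (fun z _ a _ => e1_step h3 z a) (fun K a _ h => wide_sc h) hH

/-- Hamilton-laceability passes up towers -/
theorem tower_laceable [Finite G] {A : Set G} (hs : ∀ a ∈ A, a⁻¹ ∈ A) {χ : G →* ℤˣ}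
    (hχ : ∀ a ∈ A, χ a = -1) {H K : Subgroup G}
    (h3 : 3 ≤ Nat.card H) (hb : ∃ b ∈ H, χ b = -1) (hH : Laceable A χ H)
    (hT : Tower A (Mixed χ) H K) : Laceable A χ K := by
  rw [← good_iff_laceable] at hH ⊢
  refine hT.good hs ?_ (e2_conj χ) (fun a ha _ => hχ a ha) ?_ h3
    (fun z hz a ha => e2_step hχ hb hz ha) (fun K a ha h => mixed_sc hχ ha h) hH
  · intro h
    have h1 : χ (1 : G) = -1 := h
    rw [map_one] at h1
    revert h1
    decide
  · intro a ha b hb c hc _
    show χ (a * b * c) = -1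
    rw [map_mul, map_mul, hχ a ha, hχ b hb, hχ c hc]
    decide

end Pool.Agent.Helper43.TW
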