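import Pool.Agent.Helper43.TW.Double

/-!
# The step with an abelian factor
-/

set_option autoImplicit false

namespace Pool.Agent.Helper43.TW

open Finset
open Pool.Agent.Helper43.CQ Q238.RS

variable {G : Type*} [Group G]

/-- one may go from the coset `C` to the coset `C'` -/
def Dd (A E : Set G) (K : Subgroup G) (C C' : G ⧸ K) : Prop :=
  ∀ x y : G, (QuotientGroup.mk x : G ⧸ K) = C → x⁻¹ * y ∈ E →
    ∃ u : G, (QuotientGroup.mk u : G ⧸ K) = C ∧ ∃ a ∈ A,
      (QuotientGroup.mk (u * a) : G ⧸ K) = C' ∧ x⁻¹ * u ∈ E ∧ (u * a)⁻¹ * y ∈ E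

theorem route_list {A E : Set G} {K : Subgroup G}
    (hK : ∀ y ∈ K, y ∈ E → HP (cadj A) (K : Set G) 1 y) :
    ∀ (l : List (G ⧸ K)), l.Nodup → l.IsChain (Dd A E K) → ∀ x y : G,
      l.head? = some (QuotientGroup.mk x) → l.getLast? = some (QuotientGroup.mk y) →
      x⁻¹ * y ∈ E → HP (cadj A) {v | (QuotientGroup.mk v : G ⧸ K) ∈ l} x y := by
  intro l
  induction l with
  | nil =>
    intro _ _ x y h
    simp at h
  | cons C l ih =>
    intro hnd hch x y hx hy hxy
    simp only [List.head?_cons, Option.some.injEq] at hx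
    have hmem : ∀ v, v ∈ {v | x⁻¹ * v ∈ K} ↔ (QuotientGroup.mk v : G ⧸ K) = C := by
      intro v
      show x⁻¹ * v ∈ K ↔ _
      rw [hx, eq_comm, QuotientGroup.eq]
    cases l with
    | nil =>
      simp only [List.getLast?_singleton, Option.some.injEq] at hy
      have h1 : x⁻¹ * y ∈ K := by rw [← QuotientGroup.eq, ← hx, hy]
      have h2 := HP_coset (hK _ h1 hxy)
      have h3 : {v | (QuotientGroup.mk v : G ⧸ K) ∈ [C]} = {v | x⁻¹ * v ∈ K} := by
        ext v
        rw [hmem]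
        exact List.mem_singleton
      rw [h3]
      exact h2
    | cons C' l =>
      rw [List.isChain_cons_cons] at hch
      rw [List.nodup_cons] at hnd
      obtain ⟨u, hu, a, ha, hua, hxu, huy⟩ := hch.1 x y hx.symm hxy
      have h1 := ih hnd.2 hch.2 (u * a) y (by rw [hua]; rfl)
        (by rw [← hy, List.getLast?_cons_cons]) huy
      have hxuK : x⁻¹ * u ∈ K := by rw [← QuotientGroup.eq, ← hx, hu]
      have h2 := HP_coset (hK _ hxuK hxu)
      refine h2.append' h1 ?_ ?_ ?_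
      · show u⁻¹ * (u * a) ∈ A
        rwa [inv_mul_cancel_left]
      · intro v hv hv'
        have h3 : (QuotientGroup.mk v : G ⧸ K) ∈ C' :: l := hv'
        rw [(hmem v).1 hv] at h3
        exact hnd.1 h3
      · intro v
        rw [hmem]
        exact List.mem_cons

/-- adjacent cosets -/
def Cadj (A : Set G) (K : Subgroup G) (C C' : G ⧸ K) : Prop :=
  ∃ u : G, (QuotientGroup.mk u : G ⧸ K) = C ∧ ∃ a ∈ A, a ∉ K ∧ (QuotientGroup.mk (u * a) : G ⧸ K) = C'

/-- one may choose among the parallel edges -/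
def SC (E : Set G) (K : Subgroup G) (a : G) : Prop :=
  ∀ x y u : G, x⁻¹ * u ∈ K → x⁻¹ * y ∈ E →
    ∃ s ∈ K, a⁻¹ * s * a ∈ K ∧ x⁻¹ * (u * s) ∈ E ∧ (u * s * a)⁻¹ * y ∈ E

theorem Cadj.dd {A E : Set G} {K : Subgroup G} (hS : ∀ a ∈ A, a ∉ K → SC E K a) {C C' : G ⧸ K}
    (h : Cadj A K C C') : Dd A E K C C' := by
  obtain ⟨u, rfl, a, ha, haK, rfl⟩ := h
  intro x y hx hxy
  obtain ⟨s, hs, hsa, h1, h2⟩ := hS a ha haK x y u (by rw [← QuotientGroup.eq, hx]) hxy
  refine ⟨u * s, ?_, a, ha, ?_, h1, h2⟩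
  · rw [eq_comm, QuotientGroup.eq, inv_mul_cancel_left]
    exact hs
  · rw [eq_comm, QuotientGroup.eq]
    have h3 : (u * a)⁻¹ * (u * s * a) = a⁻¹ * s * a := by group
    rw [h3]
    exact hsa

/-- **The step with a Hamiltonian coset graph.** -/
theorem cyclic_step [Finite G] {A E : Set G} {K : Subgroup G} (hAinv : ∀ a ∈ A, a⁻¹ ∈ A)
    (hK : ∀ y ∈ K, y ∈ E → HP (cadj A) (K : Set G) 1 y) (hAE : ∀ a ∈ A, a ∉ K → a ∈ E)
    (hS : ∀ a ∈ A, a ∉ K → SC E K a) {l : List (G ⧸ K)} (hnd : l.Nodup) (hall : ∀ C, C ∈ l)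
    (hch : l.IsChain (Cadj A K)) {C C' : G ⧸ K} (hC : l.head? = some C)
    (hC' : l.getLast? = some C') (hcl : Cadj A K C' C) : HCyc A (Set.univ : Set G) := by
  obtain ⟨k, hk, a, ha, haK, hka⟩ := hcl
  have hfin := route_list hK l hnd (hch.imp fun _ _ h => h.dd hS) (k * a) k
    (by rw [hC, hka]) (by rw [hC', hk]) (by
      have h1 : (k * a)⁻¹ * k = a⁻¹ := by group
      rw [h1]
      exact hAE _ (hAinv a ha) fun h => haK (inv_mem_iff.1 h))
  have huniv : {v | (QuotientGroup.mk v : G ⧸ K) ∈ l} = Set.univ := by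
    rw [Set.eq_univ_iff_forall]
    intro v
    exact hall _
  rw [huniv] at hfin
  obtain ⟨f, hf1, hf2, hf3, hf4⟩ := perm_of_HP hfin
  refine ⟨f, hf1, hf2, fun z hz => ?_⟩
  by_cases hzk : z = k
  · rw [hzk, hf3, inv_mul_cancel_left]
    exact ha
  · exact hf4 z hz hzk

/-- the same for a sequence of representatives -/
theorem cyclic_step_seq [Finite G] {A E : Set G} {K : Subgroup G} (hAinv : ∀ a ∈ A, a⁻¹ ∈ A)
    (hK : ∀ y ∈ K, y ∈ E → HP (cadj A) (K : Set G) 1 y) (hAE : ∀ a ∈ A, a ∉ K → a ∈ E)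
    (hS : ∀ a ∈ A, a ∉ K → SC E K a) (c : ℕ → G)
    (hinj : ∀ i j, i < K.index → j < K.index → (c i)⁻¹ * c j ∈ K → i = j)
    (hstep : ∀ i < K.index, ∃ k ∈ K, ∃ a ∈ A, a ∉ K ∧ ∃ k' ∈ K, (c i)⁻¹ * c (i + 1) = k * a * k')
    (hclose : (c K.index)⁻¹ * c 0 ∈ K) : HCyc A (Set.univ : Set G) := by
  classical
  have := Fintype.ofFinite (G ⧸ K)
  have hidx : 0 < K.index := Nat.pos_of_ne_zero Subgroup.index_ne_zero_of_finite
  have hcadj : ∀ i < K.index, Cadj A K (QuotientGroup.mk (c i)) (QuotientGroup.mk (c (i + 1))) := by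
    intro i hi
    obtain ⟨k, hk, a, ha, haK, k', hk', he⟩ := hstep i hi
    refine ⟨c i * k, ?_, a, ha, haK, ?_⟩
    · rw [eq_comm, QuotientGroup.eq, inv_mul_cancel_left]
      exact hk
    · rw [QuotientGroup.eq]
      have h1 : (c i * k * a)⁻¹ * c (i + 1) = (k * a)⁻¹ * ((c i)⁻¹ * c (i + 1)) := by group
      rw [h1, he, inv_mul_cancel_left]
      exact hk'
  set l : List (G ⧸ K) := (List.range K.index).map fun i => (QuotientGroup.mk (c i) : G ⧸ K)
    with hl
  have hnd : l.Nodup := by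
    rw [hl]
    refine List.Nodup.map_on ?_ List.nodup_range
    intro i hi j hj h
    rw [List.mem_range] at hi hj
    exact hinj i j hi hj (QuotientGroup.eq.1 h)
  have hlen : l.length = K.index := by rw [hl, List.length_map, List.length_range]
  have hall : ∀ C, C ∈ l := by
    have h1 : l.toFinset = Finset.univ := by
      apply Finset.eq_univ_of_card
      rw [List.toFinset_card_of_nodup hnd, hlen, ← Nat.card_eq_fintype_card]
      rfl
    intro C
    rw [← List.mem_toFinset, h1]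
    exact Finset.mem_univ C
  refine cyclic_step hAinv hK hAE hS hnd hall ?_ (C := QuotientGroup.mk (c 0))
    (C' := QuotientGroup.mk (c (K.index - 1))) ?_ ?_ ?_
  · rw [hl, List.isChain_map, List.isChain_iff_getElem]
    intro i hi
    rw [List.length_range] at hi
    rw [List.getElem_range, List.getElem_range]
    exact hcadj i (by omega)
  · rw [hl, List.head?_map, List.head?_range]
    simp [hidx.ne']
  · rw [hl, List.getLast?_map, List.getLast?_range]
    simp [hidx.ne']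
  · have h1 := hcadj (K.index - 1) (by omega)
    rw [show K.index - 1 + 1 = K.index by omega] at h1
    have h2 : (QuotientGroup.mk (c K.index) : G ⧸ K) = QuotientGroup.mk (c 0) :=
      QuotientGroup.eq.2 hclose
    rw [h2] at h1
    exact h1

/-- **The step with an abelian factor**, abstract form. -/
theorem factor_step [Finite G] {A E : Set G} {K M : Subgroup G} (hAinv : ∀ a ∈ A, a⁻¹ ∈ A)
    (hgen : Subgroup.closure A = ⊤) (hMc : ∀ x ∈ M, ∀ y ∈ M, x * y = y * x)
    (hMK : ∀ g : G, ∃ m ∈ M, ∃ k ∈ K, m * k = g) (hKtop : K ≠ ⊤)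
    (hK : ∀ y ∈ K, y ∈ E → HP (cadj A) (K : Set G) 1 y)
    (hAE : ∀ a ∈ A, a ∉ K → a ∈ E)
    (hS : ∀ a ∈ A, a ∉ K → SC E K a) :
    HCyc A (Set.univ : Set G) := by
  classical
  let _ : CommGroup M := { (inferInstance : Group M) with
    mul_comm := fun x y => Subtype.ext (hMc x x.2 y y.2) }
  set R : Subgroup M := K.subgroupOf M with hR
  have hRmem : ∀ m : M, m ∈ R ↔ (m : G) ∈ K := fun m => Subgroup.mem_subgroupOf
  -- the map of cosets
  set φ : M ⧸ R → G ⧸ K := fun q => QuotientGroup.mk ((Quotient.out q : M) : G) with hφ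
  have hφmk : ∀ m : M, φ (QuotientGroup.mk m) = QuotientGroup.mk (m : G) := by
    intro m
    have h1 : (QuotientGroup.mk (Quotient.out (QuotientGroup.mk m : M ⧸ R)) : M ⧸ R) =
        QuotientGroup.mk m := Quotient.out_eq _
    rw [QuotientGroup.eq, hRmem] at h1
    show (QuotientGroup.mk ((Quotient.out (QuotientGroup.mk m : M ⧸ R) : M) : G) : G ⧸ K) = _
    rw [QuotientGroup.eq]
    exact h1
  have hφinj : Function.Injective φ := by
    intro q q' h
    obtain ⟨m, rfl⟩ := QuotientGroup.mk_surjective q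
    obtain ⟨m', rfl⟩ := QuotientGroup.mk_surjective q'
    rw [hφmk, hφmk, QuotientGroup.eq] at h
    rw [QuotientGroup.eq, hRmem]
    exact h
  have hφsurj : ∀ g : G, ∃ q, φ q = QuotientGroup.mk g := by
    intro g
    obtain ⟨m, hm, k, hk, rfl⟩ := hMK g
    refine ⟨QuotientGroup.mk ⟨m, hm⟩, ?_⟩
    rw [hφmk, QuotientGroup.eq]
    show m⁻¹ * (m * k) ∈ K
    rwa [inv_mul_cancel_left]
  -- the connection set
  set C : Set (M ⧸ R) := {q | ∃ m : M, QuotientGroup.mk m = q ∧ (m : G) ∉ K ∧ ∃ k ∈ K, ∃ a ∈ A,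
    ∃ k₁ ∈ K, k * a = m * k₁} with hC
  have hCinv : ∀ q ∈ C, q⁻¹ ∈ C := by
    rintro _ ⟨m, rfl, hm, k, hk, a, ha, k₁, hk₁, he⟩
    refine ⟨m⁻¹, rfl, ?_, k₁, hk₁, a⁻¹, hAinv a ha, k, hk, ?_⟩
    · intro h
      exact hm (inv_mem_iff.1 h)
    · rw [Subgroup.coe_inv, mul_inv_eq_iff_eq_mul, mul_assoc, he, inv_mul_cancel_left]
  have hCgen : Subgroup.closure C = ⊤ := by
    rw [eq_top_iff]
    intro q _
    obtain ⟨m, rfl⟩ := QuotientGroup.mk_surjective q
    have hX : ∀ g : G, ∃ m' : M, (QuotientGroup.mk m' : M ⧸ R) ∈ Subgroup.closure C ∧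
        ∃ k ∈ K, g = m' * k := by
      intro g
      have hg : g ∈ Subgroup.closure A := by
        rw [hgen]
        exact Subgroup.mem_top g
      obtain ⟨l, hl, rfl⟩ := exists_list hAinv hg
      clear hg
      induction l using List.reverseRecOn with
      | nil => exact ⟨1, Subgroup.one_mem _, 1, K.one_mem, by simp⟩
      | append_singleton l a ih =>
        obtain ⟨m', hm', k, hk, he⟩ := ih fun b hb => hl b (List.mem_append_left _ hb)
        have ha : a ∈ A := hl a (by simp)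
        obtain ⟨m₁, hm₁, k₁, hk₁, he₁⟩ := hMK (k * a)
        by_cases hmK : m₁ ∈ K
        · refine ⟨m', hm', m₁ * k₁, K.mul_mem hmK hk₁, ?_⟩
          rw [List.prod_append, List.prod_singleton, he, mul_assoc, ← he₁]
        · refine ⟨m' * ⟨m₁, hm₁⟩, ?_, k₁, hk₁, ?_⟩
          · have h1 : (QuotientGroup.mk (⟨m₁, hm₁⟩ : M) : M ⧸ R) ∈ C :=
              ⟨⟨m₁, hm₁⟩, rfl, hmK, k, hk, a, ha, k₁, hk₁, he₁.symm⟩
            exact Subgroup.mul_mem _ hm' (Subgroup.subset_closure h1)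
          · rw [List.prod_append, List.prod_singleton, he, mul_assoc, ← he₁, ← mul_assoc]
            rfl
    obtain ⟨m', hm', k, hk, he⟩ := hX m
    have h1 : (QuotientGroup.mk m : M ⧸ R) = QuotientGroup.mk m' := by
      rw [eq_comm, QuotientGroup.eq, hRmem]
      show (m' : G)⁻¹ * m ∈ K
      rw [he, inv_mul_cancel_left]
      exact hk
    rw [h1]
    exact hm'
  have hne : Subgroup.closure C ≠ ⊥ := by
    rw [hCgen]
    intro h
    apply hKtop
    rw [eq_top_iff]
    intro g _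
    obtain ⟨m, hm, k, hk, rfl⟩ := hMK g
    have h1 : (QuotientGroup.mk (⟨m, hm⟩ : M) : M ⧸ R) ∈ (⊤ : Subgroup (M ⧸ R)) :=
      Subgroup.mem_top _
    rw [h, Subgroup.mem_bot, QuotientGroup.eq_one_iff, hRmem] at h1
    exact K.mul_mem h1 hk
  obtain ⟨σ, hσ1, -, hσ2⟩ := hcyc_closure hCinv (fun q hq g => by
    have : g⁻¹ * q * g = q := by rw [mul_comm g⁻¹ q, inv_mul_cancel_right]
    rw [this]
    exact hq) hne
  rw [hCgen, Subgroup.coe_top] at hσ1 hσ2
  -- the list of cosets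
  have hQ : HP (cadj C) (Set.univ : Set (M ⧸ R)) (σ 1) 1 :=
    HP_of_perm hσ1 (Set.mem_univ 1) rfl fun z _ _ => hσ2 z (Set.mem_univ z)
  obtain ⟨l, hl1, hl2, hl3, hl4, hl5⟩ := hQ
  have hDd : ∀ q q' : M ⧸ R, cadj C q q' → Cadj A K (φ q) (φ q') := by
    intro q q' h
    obtain ⟨m, hm, hmK, k, hk, a, ha, k₁, hk₁, he⟩ := h
    obtain ⟨m₁, rfl⟩ := QuotientGroup.mk_surjective q
    have hq' : q' = QuotientGroup.mk (m₁ * m) := by
      have : q' = QuotientGroup.mk m₁ * QuotientGroup.mk m := by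
        rw [hm, mul_inv_cancel_left]
      rw [this]
      rfl
    subst hq'
    have haK : a ∉ K := by
      intro haK
      apply hmK
      have h1 : (m : G) = k * a * k₁⁻¹ := by rw [he, mul_inv_cancel_right]
      rw [h1]
      exact K.mul_mem (K.mul_mem hk haK) (K.inv_mem hk₁)
    refine ⟨m₁ * k, ?_, a, ha, haK, ?_⟩
    · rw [hφmk, eq_comm, QuotientGroup.eq, inv_mul_cancel_left]
      exact hk
    · rw [hφmk, eq_comm, QuotientGroup.eq]
      have h3 : ((m₁ * m : M) : G)⁻¹ * (m₁ * k * a) = (m : G)⁻¹ * (k * a) := by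
        rw [Subgroup.coe_mul]
        group
      rw [h3, he, inv_mul_cancel_left]
      exact hk₁
  refine cyclic_step hAinv hK hAE hS (l := l.map φ) (hl1.map hφinj) ?_ ?_ (C := φ (σ 1))
    (C' := φ 1) ?_ ?_ ?_
  · intro D
    obtain ⟨g, rfl⟩ := QuotientGroup.mk_surjective D
    obtain ⟨q, hq⟩ := hφsurj g
    exact List.mem_map.2 ⟨q, (hl2 q).2 (Set.mem_univ q), hq⟩
  · rw [List.isChain_map]
    exact hl3.imp hDd
  · rw [List.head?_map, hl4]
    rfl
  · rw [List.getLast?_map, hl5]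
    rfl
  · exact hDd _ _ (hσ2 1 (Set.mem_univ 1))

end Pool.Agent.Helper43.TW
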