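import Pool.Agent.Helper43.TW.Merge

/-!
# The normal step
-/

set_option autoImplicit false

namespace Pool.Agent.Helper43.TW

open Finset SimpleGraph Equiv
open Pool.Agent.Q112.CH Q238.RS Pool.Agent.Helper43.CQ

variable {G : Type*} [Group G]

/-- the path through the fibres of a path of the tree -/
theorem route_normal [Finite G] {A : Set G} {N : Subgroup G} [N.Normal]
    {T : SimpleGraph (G ⧸ N)} {L E : Set G}
    (hTA : ∀ F F' : G ⧸ N, T.Adj F F' → ∃ a ∈ A, F' = F * QuotientGroup.mk a)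
    (hP : ∀ y ∈ N, y ∈ E → HPathTwo A L L N y)
    (hstep : ∀ z ∈ E, ∀ a ∈ A, ∃ n ∈ N, n ∈ E ∧ (n * a)⁻¹ * z ∈ E) {F F' : G ⧸ N}
    (p : T.Walk F F') (hp : p.IsPath) : ∀ x y : G, (QuotientGroup.mk x : G ⧸ N) = F →
      (QuotientGroup.mk y : G ⧸ N) = F' → x⁻¹ * y ∈ E →
      ∃ f : Perm G, f.IsCycleOn {z | (QuotientGroup.mk z : G ⧸ N) ∈ p.support} ∧
        (∀ z, (QuotientGroup.mk z : G ⧸ N) ∉ p.support → f z = z) ∧ f y = x ∧
        (∀ z, (QuotientGroup.mk z : G ⧸ N) ∈ p.support → z ≠ y → z⁻¹ * f z ∈ A) ∧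
        ∀ F'' ∈ p.support, ∃ z₁ z₂ : G, (QuotientGroup.mk z₁ : G ⧸ N) = F'' ∧
          (QuotientGroup.mk z₂ : G ⧸ N) = F'' ∧ z₁ ≠ z₂ ∧ z₁ ≠ y ∧ z₂ ≠ y ∧
          z₁⁻¹ * f z₁ ∈ L ∧ z₂⁻¹ * f z₂ ∈ L := by
  classical
  induction p with
  | nil =>
    rename_i F
    intro x y hx hy hxy
    have hyN : x⁻¹ * y ∈ N := by rw [← QuotientGroup.eq, hx, hy]
    obtain ⟨k0, h1, h2, h3, h4, z₁, hz₁, z₂, hz₂, hz, hz1, hz2, h5, h6⟩ := hP _ hyN hxy
    obtain ⟨k, hk1, hk2, hkap⟩ := coset_perm h1 h2 x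
    have hmk : ∀ z, (QuotientGroup.mk z : G ⧸ N) ∈ (Walk.nil : T.Walk F F).support ↔
        x⁻¹ * z ∈ N := by
      intro z
      rw [Walk.support_nil, List.mem_singleton, ← QuotientGroup.eq, hx]
      exact eq_comm
    have hset : {z | (QuotientGroup.mk z : G ⧸ N) ∈ (Walk.nil : T.Walk F F).support} =
        {z | x⁻¹ * z ∈ N} := by
      ext z
      exact hmk z
    refine ⟨k, ?_, ?_, ?_, ?_, ?_⟩
    · rw [hset]
      exact hk1
    · intro z hz
      exact hk2 z fun h => hz ((hmk z).2 h)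
    · rw [hkap, h3, mul_one]
    · intro z hz hzy
      rw [hkap]
      have h7 := h4 _ ((hmk z).1 hz) fun h => hzy (mul_left_cancel h)
      rw [mul_inv_rev, inv_inv, mul_assoc] at h7
      exact h7
    · intro F'' hF''
      rw [Walk.support_nil, List.mem_singleton] at hF''
      have hzF : ∀ z ∈ N, (QuotientGroup.mk (x * z) : G ⧸ N) = F'' := by
        intro z hz
        rw [hF'', ← hx, eq_comm, QuotientGroup.eq, inv_mul_cancel_left]
        exact hz
      have hzy : ∀ z, z ≠ x⁻¹ * y → x * z ≠ y := by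
        rintro z hz rfl
        exact hz (inv_mul_cancel_left x z).symm
      have hzk : ∀ z, (x * z)⁻¹ * k (x * z) = z⁻¹ * k0 z := by
        intro z
        rw [hkap, inv_mul_cancel_left, mul_inv_rev, mul_assoc, inv_mul_cancel_left]
      refine ⟨x * z₁, x * z₂, hzF z₁ hz₁, hzF z₂ hz₂, fun h => hz (mul_left_cancel h),
        hzy z₁ hz1, hzy z₂ hz2, ?_, ?_⟩
      · rw [hzk]
        exact h5
      · rw [hzk]
        exact h6
  | cons hadj p ih =>
    rename_i F F₁ F'
    intro x y hx hy hxy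
    rw [Walk.cons_isPath_iff] at hp
    obtain ⟨a, ha, hFa⟩ := hTA _ _ hadj
    obtain ⟨n, hn, hnE, hna⟩ := hstep _ hxy a ha
    have hua : (QuotientGroup.mk (x * n * a) : G ⧸ N) = F₁ := by
      have h1 : (QuotientGroup.mk (x * n) : G ⧸ N) = QuotientGroup.mk x := by
        rw [eq_comm, QuotientGroup.eq, inv_mul_cancel_left]
        exact hn
      rw [hFa, ← hx, ← h1]
      rfl
    have huF : (QuotientGroup.mk (x * n) : G ⧸ N) = F := by
      rw [← hx, eq_comm, QuotientGroup.eq, inv_mul_cancel_left]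
      exact hn
    have hvy : (x * n * a)⁻¹ * y ∈ E := by
      have h1 : (x * n * a)⁻¹ * y = (n * a)⁻¹ * (x⁻¹ * y) := by group
      rw [h1]
      exact hna
    obtain ⟨f, hf1, hf2, hf3, hf4, hf5⟩ := ih hp.1 (x * n * a) y hua hy hvy
    obtain ⟨k0, h1, h2, h3, h4, z₁, hz₁, z₂, hz₂, hz, hz1, hz2, h5, h6⟩ := hP n hn hnE
    obtain ⟨k, hk1, hk2, hkap⟩ := coset_perm h1 h2 x
    have hmk : ∀ z, (QuotientGroup.mk z : G ⧸ N) = F ↔ x⁻¹ * z ∈ N := by
      intro z
      rw [← QuotientGroup.eq, hx]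
      exact eq_comm
    have hset : {z | x⁻¹ * z ∈ N} = {z | (QuotientGroup.mk z : G ⧸ N) = F} := by
      ext z
      exact (hmk z).symm
    rw [hset] at hk1
    have hk2' : ∀ z, (QuotientGroup.mk z : G ⧸ N) ≠ F → k z = z := fun z hz =>
      hk2 z fun h => hz ((hmk z).2 h)
    have hku : k (x * n) = x := by
      rw [hkap, inv_mul_cancel_left, h3, mul_one]
    have hF'mem : F' ∈ p.support := Walk.end_mem_support p
    have hF₁mem : F₁ ∈ p.support := Walk.start_mem_support p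
    have hdisj : Disjoint {z | (QuotientGroup.mk z : G ⧸ N) = F}
        {z | (QuotientGroup.mk z : G ⧸ N) ∈ p.support} := by
      rw [Set.disjoint_left]
      intro z hz1 hz2
      have h7 : (QuotientGroup.mk z : G ⧸ N) = F := hz1
      have h8 : (QuotientGroup.mk z : G ⧸ N) ∈ p.support := hz2
      rw [h7] at h8
      exact hp.2 h8
    have hmerge := isCycleOn_merge (Set.toFinite _) (Set.toFinite _) hk1 hf1 hdisj
      (fun z hz => hk2' z fun h => by
        have h8 : (QuotientGroup.mk z : G ⧸ N) ∈ p.support := hz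
        rw [h] at h8
        exact hp.2 h8)
      (fun z hz => hf2 z fun h => by
        have h7 : (QuotientGroup.mk z : G ⧸ N) = F := hz
        rw [h7] at h
        exact hp.2 h) (u := x * n) (w := y) huF (by
          show (QuotientGroup.mk y : G ⧸ N) ∈ p.support
          rw [hy]
          exact hF'mem)
    have hunion : {z | (QuotientGroup.mk z : G ⧸ N) = F} ∪
        {z | (QuotientGroup.mk z : G ⧸ N) ∈ p.support} =
        {z | (QuotientGroup.mk z : G ⧸ N) ∈ (Walk.cons hadj p).support} := by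
      ext z
      show _ ∨ _ ↔ (QuotientGroup.mk z : G ⧸ N) ∈ (Walk.cons hadj p).support
      rw [Walk.support_cons, List.mem_cons]
      rfl
    rw [hunion] at hmerge
    have hyF : (QuotientGroup.mk y : G ⧸ N) ≠ F := by
      rw [hy]
      rintro rfl
      exact hp.2 hF'mem
    have hyu : y ≠ x * n := by
      rintro rfl
      exact hyF huF
    have hVu : (k * f * swap (x * n) y) (x * n) = x * n * a := by
      rw [Perm.mul_apply, Perm.mul_apply, swap_apply_left, hf3]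
      refine hk2' _ ?_
      rw [hua]
      rintro rfl
      exact hp.2 hF₁mem
    have hVy : (k * f * swap (x * n) y) y = x := by
      rw [Perm.mul_apply, Perm.mul_apply, swap_apply_right, hf2 (x * n), hku]
      rw [huF]
      exact hp.2
    have hVF : ∀ z, (QuotientGroup.mk z : G ⧸ N) = F → z ≠ x * n →
        (k * f * swap (x * n) y) z = k z := by
      intro z hz hzu
      rw [Perm.mul_apply, Perm.mul_apply, swap_apply_of_ne_of_ne hzu, hf2 z]
      · rw [hz]
        exact hp.2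
      · rintro rfl
        exact hyF hz
    have hVs : ∀ z, (QuotientGroup.mk z : G ⧸ N) ∈ p.support → z ≠ y →
        (k * f * swap (x * n) y) z = f z := by
      intro z hz hzy
      rw [Perm.mul_apply, Perm.mul_apply, swap_apply_of_ne_of_ne _ hzy]
      · refine hk2' _ fun h => ?_
        have h7 : f z ∈ {z | (QuotientGroup.mk z : G ⧸ N) ∈ p.support} := hf1.1.mapsTo hz
        have h8 : (QuotientGroup.mk (f z) : G ⧸ N) ∈ p.support := h7
        rw [h] at h8
        exact hp.2 h8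
      · rintro rfl
        rw [huF] at hz
        exact hp.2 hz
    refine ⟨k * f * swap (x * n) y, hmerge, ?_, hVy, ?_, ?_⟩
    · intro z hz
      rw [Walk.support_cons, List.mem_cons, not_or] at hz
      rw [Perm.mul_apply, Perm.mul_apply, swap_apply_of_ne_of_ne, hf2 z hz.2, hk2' z hz.1]
      · rintro rfl
        exact hz.1 huF
      · rintro rfl
        rw [hy] at hz
        exact hz.2 hF'mem
    · intro z hz hzy
      rw [Walk.support_cons, List.mem_cons] at hz
      by_cases hzu : z = x * n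
      · rw [hzu, hVu, inv_mul_cancel_left]
        exact ha
      rcases hz with hz | hz
      · rw [hVF z hz hzu, hkap]
        have h7 := h4 _ ((hmk z).1 hz) fun h => hzu (by rw [← h, mul_inv_cancel_left])
        rw [mul_inv_rev, inv_inv, mul_assoc] at h7
        exact h7
      · rw [hVs z hz hzy]
        exact hf4 z hz hzy
    · intro F'' hF''
      rw [Walk.support_cons, List.mem_cons] at hF''
      rcases hF'' with rfl | hF''
      · have hzF : ∀ z ∈ N, (QuotientGroup.mk (x * z) : G ⧸ N) = F'' := by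
          intro z hz
          rw [← hx, eq_comm, QuotientGroup.eq, inv_mul_cancel_left]
          exact hz
        have hzy : ∀ z ∈ N, x * z ≠ y := by
          rintro z hz rfl
          exact hyF (hzF z hz)
        have hzk : ∀ z ∈ N, z ≠ n → (x * z)⁻¹ * (k * f * swap (x * n) y) (x * z) =
            z⁻¹ * k0 z := by
          intro z hz hzn
          rw [hVF _ (hzF z hz) fun h => hzn (mul_left_cancel h), hkap, inv_mul_cancel_left,
            mul_inv_rev, mul_assoc, inv_mul_cancel_left]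
        refine ⟨x * z₁, x * z₂, hzF z₁ hz₁, hzF z₂ hz₂, fun h => hz (mul_left_cancel h),
          hzy z₁ hz₁, hzy z₂ hz₂, ?_, ?_⟩
        · rw [hzk z₁ hz₁ hz1]
          exact h5
        · rw [hzk z₂ hz₂ hz2]
          exact h6
      · obtain ⟨w₁, w₂, g1, g2, g3, g4, g5, g6, g7⟩ := hf5 F'' hF''
        refine ⟨w₁, w₂, g1, g2, g3, g4, g5, ?_, ?_⟩
        · rw [hVs w₁ (by rw [g1]; exact hF'') g4]
          exact g6
        · rw [hVs w₂ (by rw [g2]; exact hF'') g5]
          exact g7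

theorem walk_nbr {W : Type*} {T : SimpleGraph W} {u v : W} (p : T.Walk u v) (hp : p.IsPath)
    (huv : u ≠ v) : ∀ F ∈ p.support, ∃ F' ∈ p.support, T.Adj F F' := by
  induction p with
  | nil => exact absurd rfl huv
  | cons h p ih =>
    rename_i a b c
    intro F hF
    rw [Walk.cons_isPath_iff] at hp
    rw [Walk.support_cons, List.mem_cons] at hF
    rcases hF with rfl | hF
    · refine ⟨b, ?_, h⟩
      rw [Walk.support_cons, List.mem_cons]
      exact Or.inr (Walk.start_mem_support p)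
    · by_cases hbc : b = c
      · subst hbc
        rw [Walk.isPath_iff_eq_nil] at hp
        rw [hp.1, Walk.support_nil, List.mem_singleton] at hF
        refine ⟨a, ?_, by rw [hF]; exact h.symm⟩
        rw [Walk.support_cons, List.mem_cons]
        exact Or.inl rfl
      · obtain ⟨F', h1, h2⟩ := ih hp.1 hbc F hF
        refine ⟨F', ?_, h2⟩
        rw [Walk.support_cons, List.mem_cons]
        exact Or.inr h1

theorem two_of_three {N : Subgroup G} [Finite G] (h3 : 3 ≤ Nat.card N) (y : G) :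
    ∃ z₁ ∈ N, ∃ z₂ ∈ N, z₁ ≠ z₂ ∧ z₁ ≠ y ∧ z₂ ≠ y := by
  have h1 : 2 ≤ ((N : Set G) \ {y}).ncard := by
    have h2 : (N : Set G).ncard = Nat.card N := rfl
    have h5 := Set.ncard_le_ncard_diff_add_ncard (N : Set G) {y} (Set.toFinite _)
    rw [Set.ncard_singleton] at h5
    omega
  have h7 : 1 < ((N : Set G) \ {y}).ncard := by omega
  obtain ⟨z₁, h4, z₂, h5, h6⟩ := (Set.one_lt_ncard (Set.toFinite _)).1 h7
  exact ⟨z₁, h4.1, z₂, h5.1, h6, fun h => h4.2 h, fun h => h5.2 h⟩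

theorem hpath_two [Finite G] {A E : Set G} {N : Subgroup G} (h3 : 3 ≤ Nat.card N)
    (hN : ∀ y ∈ N, y ∈ E → HP (cadj A) (N : Set G) 1 y)
    (hBE : ∀ b ∈ A, b ∈ N → b ≠ 1 → b ∈ E) :
    ∀ y ∈ N, y ∈ E → HPathTwo A {b | b ∈ N ∧ b ∈ E} {b | b ∈ N ∧ b ∈ E} N y := by
  intro y hy hyE
  obtain ⟨k, hk1, hk2, hk3, hk4⟩ := perm_of_HP (hN y hy hyE)
  obtain ⟨z₁, hz₁, z₂, hz₂, h12, h1y, h2y⟩ := two_of_three h3 y
  have hnt : (N : Set G).Nontrivial := ⟨z₁, hz₁, z₂, hz₂, h12⟩
  have hlab : ∀ z ∈ N, z ≠ y → z⁻¹ * k z ∈ {b | b ∈ N ∧ b ∈ E} := by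
    intro z hz hzy
    have h1 : z⁻¹ * k z ∈ N := N.mul_mem (N.inv_mem hz) (hk1.1.mapsTo hz)
    refine ⟨h1, hBE _ (hk4 z hz hzy) h1 fun h => ?_⟩
    exact hk1.apply_ne hnt hz (inv_mul_eq_one.1 h).symm
  exact ⟨k, hk1, hk2, hk3, hk4, z₁, hz₁, z₂, hz₂, h12, h1y, h2y, hlab z₁ hz₁ h1y,
    hlab z₂ hz₂ h2y⟩

/-- **The normal step.** -/
theorem normal_step [Finite G] {A E : Set G} {N : Subgroup G} [N.Normal]
    (hAinv : ∀ a ∈ A, a⁻¹ ∈ A) (hgen : Subgroup.closure A = ⊤)
    (hEconj : ∀ a ∈ A, ∀ b ∈ E, a⁻¹ * b * a ∈ E) (h3 : 3 ≤ Nat.card N)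
    (hN : ∀ y ∈ N, y ∈ E → HP (cadj A) (N : Set G) 1 y)
    (hBE : ∀ b ∈ A, b ∈ N → b ≠ 1 → b ∈ E)
    (hstep : ∀ z ∈ E, ∀ a ∈ A, ∃ n ∈ N, n ∈ E ∧ (n * a)⁻¹ * z ∈ E) :
    ∀ y ∈ E, HP (cadj A) Set.univ 1 y := by
  classical
  intro y hyE
  have := Fintype.ofFinite G
  have := Fintype.ofFinite (G ⧸ N)
  have hP2 := hpath_two h3 hN hBE
  set L : Set G := {b | b ∈ N ∧ b ∈ E} with hL
  have hP : ∀ a ∈ A, ∀ b ∈ L, HPathTwo A L L N (a⁻¹ * b * a) := by
    rintro a ha b ⟨hb1, hb2⟩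
    refine hP2 _ ?_ (hEconj a ha b hb2)
    have h1 := Subgroup.Normal.conj_mem (inferInstance : N.Normal) b hb1 a⁻¹
    rwa [inv_inv] at h1
  set Ā : Set (G ⧸ N) := (QuotientGroup.mk : G → G ⧸ N) '' A with hĀ
  have hĀinv : ∀ b ∈ Ā, b⁻¹ ∈ Ā := by
    rintro _ ⟨a, ha, rfl⟩
    exact ⟨a⁻¹, hAinv a ha, rfl⟩
  have hĀgen : Subgroup.closure Ā = ⊤ := by
    have h1 := Subgroup.map_top_of_surjective (QuotientGroup.mk' N)
      (QuotientGroup.mk'_surjective N)
    rw [← hgen, MonoidHom.map_closure] at h1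
    exact h1
  obtain ⟨T₀, hTle₀, hTc₀, hTdeg₀⟩ := cay_deg_three Ā hĀinv hĀgen
  obtain ⟨T, hTT, hTree⟩ := hTc₀.exists_isTree_le
  have hTle : T ≤ cay Ā hĀinv := hTT.trans hTle₀
  have hTc := hTree.1
  have hdeg : ∀ F, {F' | T.Adj F F'}.ncard ≤ 3 := by
    intro F
    have h1 : {F' | T₀.Adj F F'}.ncard = dg T₀ F := by
      unfold dg
      rw [← Set.ncard_coe_finset]
      congr 1
      ext y
      simp
    have h2 := Set.ncard_le_ncard (s := {F' | T.Adj F F'}) (t := {F' | T₀.Adj F F'})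
      (fun x hx => hTT hx) (Set.toFinite _)
    have h3 := hTdeg₀ F
    omega
  have hTA : ∀ F F' : G ⧸ N, T.Adj F F' → ∃ a ∈ A, F' = F * QuotientGroup.mk a := by
    intro F F' h
    obtain ⟨-, a, ha, hFa⟩ := hTle h
    exact ⟨a, ha, by rw [hFa, mul_inv_cancel_left]⟩
  -- the start
  obtain ⟨x₀, hx₀⟩ : ∃ x₀ : G, (QuotientGroup.mk x₀ : G ⧸ N) ≠ QuotientGroup.mk (x₀ * y) ∨
      {F' | T.Adj (QuotientGroup.mk x₀ : G ⧸ N) F'}.ncard ≤ 2 := by
    rcases subsingleton_or_nontrivial (G ⧸ N) with hs | hs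
    · refine ⟨1, Or.inr ?_⟩
      have : {F' | T.Adj (QuotientGroup.mk 1 : G ⧸ N) F'} = ∅ := by
        ext F'
        simp only [Set.mem_setOf_eq, Set.mem_empty_iff_false, iff_false]
        intro h
        exact h.ne (Subsingleton.elim _ _)
      rw [this, Set.ncard_empty]
      exact Nat.zero_le 2
    · obtain ⟨F₀, h1⟩ := hTree.exists_vert_degree_one_of_nontrivial
      obtain ⟨x₀, rfl⟩ := QuotientGroup.mk_surjective F₀
      refine ⟨x₀, Or.inr ?_⟩
      have h2 : {F' | T.Adj (QuotientGroup.mk x₀ : G ⧸ N) F'}.ncard =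
          T.degree (QuotientGroup.mk x₀ : G ⧸ N) := by
        rw [← SimpleGraph.card_neighborSet_eq_degree, ← Nat.card_eq_fintype_card]
        rfl
      omega
  set e : G := x₀ * y with he
  have hxe : x₀⁻¹ * e = y := by rw [he, inv_mul_cancel_left]
  obtain ⟨p, hp⟩ := (hTc.preconnected (QuotientGroup.mk x₀ : G ⧸ N)
    (QuotientGroup.mk e)).exists_isPath
  obtain ⟨f, hf1, hf2, hf3, hf4, hf5⟩ := route_normal hTA hP2 hstep p hp x₀ e rfl rfl
    (by rw [hxe]; exact hyE)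
  have : Inhabited (G ⧸ N) := ⟨QuotientGroup.mk 1⟩
  have hcount : ∀ F, F ∈ p.support →
      ∃ X Y, {F' | F' ∉ p.support ∧ T.Adj F F'} ⊆ {X, Y} := by
    intro F hF
    refine sub_pair (Set.toFinite _) ?_
    rcases hx₀ with hx₀ | hx₀
    · obtain ⟨F', hF', hadj⟩ := walk_nbr p hp hx₀ F hF
      have h1 : {F'' | F'' ∉ p.support ∧ T.Adj F F''} ⊂ {F'' | T.Adj F F''} :=
        ⟨fun x hx => hx.2, fun hc => (hc (show F' ∈ {F'' | T.Adj F F''} from hadj)).1 hF'⟩
      have h2 := Set.ncard_lt_ncard h1 (Set.toFinite _)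
      have h4 := hdeg F
      omega
    · by_cases hne : (QuotientGroup.mk x₀ : G ⧸ N) = QuotientGroup.mk e
      · have hF' : F = QuotientGroup.mk x₀ := by
          have hnil : p.support = [QuotientGroup.mk x₀] := by
            clear hf1 hf2 hf4 hf5
            generalize (QuotientGroup.mk e : G ⧸ N) = c at p hne
            subst hne
            rw [Walk.isPath_iff_eq_nil] at hp
            rw [hp, Walk.support_nil]
          rw [hnil, List.mem_singleton] at hF
          exact hF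
        rw [← hF'] at hx₀
        exact (Set.ncard_le_ncard (fun x hx => hx.2) (Set.toFinite _)).trans hx₀
      · obtain ⟨F', hF', hadj⟩ := walk_nbr p hp hne F hF
        have h1 : {F'' | F'' ∉ p.support ∧ T.Adj F F''} ⊂ {F'' | T.Adj F F''} :=
          ⟨fun x hx => hx.2, fun hc => (hc (show F' ∈ {F'' | T.Adj F F''} from hadj)).1 hF'⟩
        have h2 := Set.ncard_lt_ncard h1 (Set.toFinite _)
        have h4 := hdeg F
        omega
  have hall : ∀ F : G ⧸ N, ∃ (X : G ⧸ N) (z₁ z₂ : G), F ∈ p.support →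
      (∀ F' F'', F' ∉ p.support → T.Adj F F' → F'' ∉ p.support → T.Adj F F'' → F' ≠ X →
        F'' ≠ X → F' = F'') ∧
      (QuotientGroup.mk z₁ : G ⧸ N) = F ∧ (QuotientGroup.mk z₂ : G ⧸ N) = F ∧ z₁ ≠ z₂ ∧
      z₁ ≠ e ∧ z₂ ≠ e ∧ z₁⁻¹ * f z₁ ∈ L ∧ z₂⁻¹ * f z₂ ∈ L := by
    intro F
    by_cases hF : F ∈ p.support
    · obtain ⟨X, Y, hXY⟩ := hcount F hF
      obtain ⟨z₁, z₂, hz⟩ := hf5 F hF
      refine ⟨X, z₁, z₂, fun _ => ⟨?_, hz⟩⟩
      intro F' F'' h1 h2 h4 h5 h6 h7
      have h8 : F' ∈ ({X, Y} : Set (G ⧸ N)) := hXY ⟨h1, h2⟩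
      have h9 : F'' ∈ ({X, Y} : Set (G ⧸ N)) := hXY ⟨h4, h5⟩
      rcases h8 with h8 | h8
      · exact absurd h8 h6
      rcases h9 with h9 | h9
      · exact absurd h9 h7
      rw [Set.mem_singleton_iff] at h8 h9
      rw [h8, h9]
    · exact ⟨default, 1, 1, fun h => absurd h hF⟩
  choose X z₁ z₂ hXz using hall
  have hstart : ∃ f pl, St3 A N T L x₀ e {F | F ∈ p.support} f pl := by
    refine ⟨f, fun F F' => if F' = X F then z₁ F else z₂ F, hf1, hf2, Walk.end_mem_support p,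
      hf3, hf4, ?_, ?_⟩
    · intro F hF F' hF' hT
      obtain ⟨-, g1, g2, -, g4, g5, g6, g7⟩ := hXz F hF
      by_cases h : F' = X F
      · simp only [if_pos h]
        exact ⟨g1, g4, g6⟩
      · simp only [if_neg h]
        exact ⟨g2, g5, g7⟩
    · intro F hF F' hF' F'' hF'' hT hT' heq
      obtain ⟨g0, -, -, g3, -⟩ := hXz F hF
      by_cases h : F' = X F <;> by_cases h' : F'' = X F
      · rw [h, h']
      · simp only [if_pos h, if_neg h'] at heq
        exact absurd heq g3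
      · simp only [if_neg h, if_pos h'] at heq
        exact absurd heq.symm g3
      · exact g0 F' F'' hF' hT hF'' hT' h h'
  -- a maximal state
  obtain ⟨S, hS, hSmax⟩ : ∃ S : Set (G ⧸ N), (∃ f pl, St3 A N T L x₀ e S f pl) ∧
      ∀ S' : Set (G ⧸ N), (∃ f pl, St3 A N T L x₀ e S' f pl) → S'.ncard ≤ S.ncard := by
    obtain ⟨S, hS, hm⟩ := exists_max_image
      (univ.filter fun S : Set (G ⧸ N) => ∃ f pl, St3 A N T L x₀ e S f pl)
      (fun S => S.ncard) ⟨_, mem_filter.2 ⟨mem_univ _, hstart⟩⟩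
    exact ⟨S, (mem_filter.1 hS).2, fun S' hS' => hm S' (mem_filter.2 ⟨mem_univ _, hS'⟩)⟩
  obtain ⟨g, pl, hSt⟩ := hS
  have hSuniv : S = Set.univ := by
    by_contra hne
    obtain ⟨c, hc⟩ := (Set.ne_univ_iff_exists_notMem S).1 hne
    have hedge : ∃ F F', F ∈ S ∧ F' ∉ S ∧ T.Adj F F' := by
      by_contra hno
      push Not at hno
      have h1 : Relation.ReflTransGen T.Adj (QuotientGroup.mk e : G ⧸ N) c :=
        (reachable_iff_reflTransGen _ _).1 (hTc.preconnected _ _)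
      have h2 : c ∈ S := by
        clear hc
        induction h1 with
        | refl => exact hSt.emem
        | @tail b c _ h3 ih =>
          by_contra hc
          exact hno b c ih hc h3
      exact hc h2
    obtain ⟨F, F', hF, hF', hT⟩ := hedge
    obtain ⟨f', pl', hSt'⟩ := hSt.extend hAinv (fun b hb => hb.1) hP hTA hdeg hF hF' hT
    have h1 := hSmax (insert F' S) ⟨f', pl', hSt'⟩
    rw [Set.ncard_insert_of_notMem hF' (Set.toFinite _)] at h1
    omega
  subst hSuniv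
  have hcyc : g.IsCycleOn (Set.univ : Set G) := by
    have h1 := hSt.cyc
    have h2 : {x : G | (QuotientGroup.mk x : G ⧸ N) ∈ (Set.univ : Set (G ⧸ N))} = Set.univ := by
      ext x
      simp
    rw [h2] at h1
    exact h1
  have hfin : HP (cadj A) Set.univ x₀ e :=
    HP_of_perm hcyc (Set.mem_univ e) hSt.ex fun z _ hz => hSt.adj z (Set.mem_univ _) hz
  have hfin2 := HP_translate hfin x₀⁻¹
  rw [inv_mul_cancel, hxe] at hfin2
  exact hfin2

end Pool.Agent.Helper43.TW
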