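import Pool.Agent.Helper43.TW.Defs
import Pool.Agent.Helper43.TW.Factor
import Pool.Agent.Helper43.TW.Normal

/-!
# Towers of subgroups
-/

set_option autoImplicit false

namespace Pool.Agent.Helper43.TW

open Pool.Agent.Helper43.CQ Q238.RS

variable {G : Type*} [Group G]

/-- all elements of `K` in `E` are ends of Hamiltonian paths of `K` starting at `1` -/
def Good (A E : Set G) (K : Subgroup G) : Prop :=
  ∀ y ∈ K, y ∈ E → HP (cadj A) (K : Set G) 1 y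

theorem HP_down {A : Set G} {K L : Subgroup G} (hKL : K ≤ L) {y : L}
    (h : HP (cadj A) (K : Set G) 1 (y : G)) :
    HP (cadj {x : L | (x : G) ∈ A}) (K.subgroupOf L : Set L) 1 y := by
  classical
  obtain ⟨f, hf⟩ : ∃ f : G → L, ∀ v, ∀ hv : v ∈ L, f v = ⟨v, hv⟩ :=
    ⟨fun v : G => if h : v ∈ L then (⟨v, h⟩ : L) else 1, fun v hv => by simp [hv]⟩
  refine h.map f ?_ ?_ ?_ ?_ ?_
  · intro a ha b hb hab
    rw [hf a (hKL ha), hf b (hKL hb)] at hab
    exact congrArg Subtype.val hab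
  · intro a ha b hb hab
    rw [hf a (hKL ha), hf b (hKL hb)]
    exact hab
  · intro w
    constructor
    · intro hw
      exact ⟨w, Subgroup.mem_subgroupOf.1 hw, hf w w.2⟩
    · rintro ⟨v, hv, rfl⟩
      rw [hf v (hKL hv)]
      exact Subgroup.mem_subgroupOf.2 hv
  · rw [hf 1 L.one_mem]
    rfl
  · rw [hf y y.2]

theorem HP_up {A : Set G} {L : Subgroup G} {y : L}
    (h : HP (cadj {x : L | (x : G) ∈ A}) (Set.univ : Set L) 1 y) :
    HP (cadj A) (L : Set G) 1 (y : G) := by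
  refine h.map (fun v : L => (v : G)) (fun a _ b _ hab => Subtype.ext hab) ?_ ?_ rfl rfl
  · intro a _ b _ hab
    exact hab
  · intro w
    constructor
    · intro hw
      exact ⟨⟨w, hw⟩, Set.mem_univ _, rfl⟩
    · rintro ⟨v, -, rfl⟩
      exact v.2

theorem closure_sub {A : Set G} {L : Subgroup G} (h : Subgroup.closure (A ∩ L) = L) :
    Subgroup.closure {x : L | (x : G) ∈ A} = ⊤ := by
  have himage : (L.subtype) '' {x : L | (x : G) ∈ A} = A ∩ L := by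
    ext z
    constructor
    · rintro ⟨b, hb, rfl⟩
      exact ⟨hb, b.2⟩
    · rintro ⟨h1, h2⟩
      exact ⟨⟨z, h2⟩, h1, rfl⟩
  have h1 : (Subgroup.closure {x : L | (x : G) ∈ A}).map L.subtype =
      (⊤ : Subgroup L).map L.subtype := by
    rw [MonoidHom.map_closure, himage, h]
    ext z
    constructor
    · intro hz
      exact ⟨⟨z, hz⟩, Subgroup.mem_top _, rfl⟩
    · rintro ⟨x, -, rfl⟩
      exact x.2
  exact Subgroup.map_injective L.subtype_injective h1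

/-- the normal step inside a group -/
theorem good_normal [Finite G] {A E : Set G} {K L : Subgroup G} (hAinv : ∀ a ∈ A, a⁻¹ ∈ A)
    (hEconj : ∀ g : G, ∀ b ∈ E, g⁻¹ * b * g ∈ E) (hAE : ∀ a ∈ A, a ≠ 1 → a ∈ E)
    (h3 : 3 ≤ Nat.card K) (hKE : ∀ z ∈ E, ∀ a ∈ A, ∃ n ∈ K, n ∈ E ∧ (n * a)⁻¹ * z ∈ E)
    (hKL : K ≤ L) (hgen : Subgroup.closure (A ∩ L) = L)
    (hnorm : ∀ g ∈ L, ∀ x ∈ K, g * x * g⁻¹ ∈ K) (hK : Good A E K) : Good A E L := by
  intro y hy hyE
  have hn : (K.subgroupOf L).Normal := by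
    refine ⟨fun x hx g => ?_⟩
    rw [Subgroup.mem_subgroupOf] at hx ⊢
    exact hnorm g g.2 x hx
  have hcard : Nat.card (K.subgroupOf L) = Nat.card K :=
    Nat.card_congr (Subgroup.subgroupOfEquivOfLe hKL).toEquiv
  have h := normal_step (G := L) (A := {x : L | (x : G) ∈ A}) (E := {x : L | (x : G) ∈ E})
    (N := K.subgroupOf L) (fun a ha => hAinv _ ha) (closure_sub hgen)
    (fun a _ b hb => hEconj _ _ hb) (by rw [hcard]; exact h3)
    (fun z hz hzE => HP_down hKL (hK z (Subgroup.mem_subgroupOf.1 hz) hzE))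
    (fun b hb _ hb1 => hAE _ hb fun h => hb1 (Subtype.ext h)) (by
      intro z hz a ha
      obtain ⟨n, hn, h1, h2⟩ := hKE z hz a ha
      exact ⟨⟨n, hKL hn⟩, Subgroup.mem_subgroupOf.2 hn, h1, h2⟩) ⟨y, hy⟩ hyE
  exact HP_up h

/-- the full step inside a group -/
theorem good_full [Finite G] {A E : Set G} {K L : Subgroup G} (hAinv : ∀ a ∈ A, a⁻¹ ∈ A)
    (hE1 : (1 : G) ∉ E)
    (hE3 : ∀ a ∈ A, ∀ b ∈ A, ∀ c ∈ A, a * b * c ≠ 1 → a * b * c ∈ E)
    (hKL : K ≤ L) (hS : ∀ a ∈ A, a ∈ L → a ∉ K → SC E K a)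
    (hdc : ∀ g ∈ L, g ∉ K → ∃ k ∈ K, ∃ a ∈ A, ∃ k' ∈ K, g = k * a * k')
    (hK : Good A E K) : Good A E L := by
  by_cases hLK : L ≤ K
  · rw [le_antisymm hLK hKL]
    exact hK
  obtain ⟨g₀, hg₀L, hg₀K⟩ := Set.not_subset.1 hLK
  have hdc' : ∀ g ∈ L, g ∉ K → ∃ k ∈ K, ∃ a ∈ A, ∃ k' ∈ K, g = k * a * k' ∧ a ∈ L ∧ a ∉ K := by
    intro g hg hgK
    obtain ⟨k, hk, a, ha, k', hk', rfl⟩ := hdc g hg hgK
    refine ⟨k, hk, a, ha, k', hk', rfl, ?_, ?_⟩
    · have h1 : a = k⁻¹ * (k * a * k') * k'⁻¹ := by group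
      rw [h1]
      exact L.mul_mem (L.mul_mem (L.inv_mem (hKL hk)) hg) (L.inv_mem (hKL hk'))
    · intro haK
      exact hgK (K.mul_mem (K.mul_mem hk haK) hk')
  intro y hy hyE
  have h := double_step (G := L) (A := {x : L | (x : G) ∈ A}) (E := {x : L | (x : G) ∈ E})
    (K := K.subgroupOf L) (fun a ha => hAinv _ ha) hE1
    (fun a ha b hb c hc hne => hE3 _ ha _ hb _ hc fun h => hne (Subtype.ext h))
    (fun z hz hzE => HP_down hKL (hK z (Subgroup.mem_subgroupOf.1 hz) hzE)) (by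
      intro x z hxz C hC
      obtain ⟨c, rfl⟩ := QuotientGroup.mk_surjective C
      have h1 : (x : G)⁻¹ * c ∉ K := by
        intro h1
        apply hC
        rw [eq_comm, QuotientGroup.eq, Subgroup.mem_subgroupOf]
        exact h1
      obtain ⟨k, hk, a, haA, k', hk', he, haL, haK⟩ :=
        hdc' _ (L.mul_mem (L.inv_mem x.2) c.2) h1
      obtain ⟨s, hs, hsa, h2, h4⟩ := hS a haA haL haK x z (x * k)
        (by rwa [inv_mul_cancel_left]) hxz
      refine ⟨x * ⟨k * s, hKL (K.mul_mem hk hs)⟩, ?_, ⟨a, haL⟩, haA, ?_, ?_, ?_⟩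
      · rw [eq_comm, QuotientGroup.eq, Subgroup.mem_subgroupOf, inv_mul_cancel_left]
        exact K.mul_mem hk hs
      · rw [QuotientGroup.eq, Subgroup.mem_subgroupOf]
        show ((x : G) * (k * s) * a)⁻¹ * c ∈ K
        have h5 : ((x : G) * (k * s) * a)⁻¹ * c =
            (a⁻¹ * s * a)⁻¹ * (k * a)⁻¹ * ((x : G)⁻¹ * c) := by
          group
        rw [h5, he]
        have h6 : (a⁻¹ * s * a)⁻¹ * (k * a)⁻¹ * (k * a * k') = (a⁻¹ * s * a)⁻¹ * k' := by group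
        rw [h6]
        exact K.mul_mem (K.inv_mem hsa) hk'
      · show (x : G)⁻¹ * (x * (k * s)) ∈ E
        rw [← mul_assoc (x : G) k s]
        exact h2
      · show ((x : G) * (k * s) * a)⁻¹ * z ∈ E
        rw [← mul_assoc (x : G) k s]
        exact h4) (by
      obtain ⟨k, hk, a, haA, k', hk', he, haL, haK⟩ := hdc' g₀ hg₀L hg₀K
      exact ⟨⟨a, haL⟩, haA, fun h => haK (Subgroup.mem_subgroupOf.1 h)⟩) (by
      intro g hgK
      obtain ⟨k, hk, a, haA, k', hk', he, haL, haK⟩ := hdc' g g.2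
        (fun h => hgK (Subgroup.mem_subgroupOf.2 h))
      refine ⟨⟨k, hKL hk⟩, Subgroup.mem_subgroupOf.2 hk, ⟨a, haL⟩, haA,
        fun h => haK (Subgroup.mem_subgroupOf.1 h), ?_⟩
      rw [QuotientGroup.eq, Subgroup.mem_subgroupOf]
      show ((k : G) * a)⁻¹ * g ∈ K
      rw [he, inv_mul_cancel_left]
      exact hk') ⟨y, hy⟩ hyE
  exact HP_up h

theorem Tower.le {A : Set G} {P : Subgroup G → G → Prop} {H K : Subgroup G}
    (h : Tower A P H K) : H ≤ K := by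
  induction h with
  | base => exact le_rfl
  | normal _ h1 _ _ ih => exact ih.trans h1
  | full _ h1 _ _ ih => exact ih.trans h1

theorem Tower.good [Finite G] {A E : Set G} {P : Subgroup G → G → Prop} {H K : Subgroup G}
    (hAinv : ∀ a ∈ A, a⁻¹ ∈ A) (hE1 : (1 : G) ∉ E)
    (hEconj : ∀ g : G, ∀ b ∈ E, g⁻¹ * b * g ∈ E) (hAE : ∀ a ∈ A, a ≠ 1 → a ∈ E)
    (hE3 : ∀ a ∈ A, ∀ b ∈ A, ∀ c ∈ A, a * b * c ≠ 1 → a * b * c ∈ E)
    (h3 : 3 ≤ Nat.card H) (hHE : ∀ z ∈ E, ∀ a ∈ A, ∃ n ∈ H, n ∈ E ∧ (n * a)⁻¹ * z ∈ E)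
    (hPS : ∀ K : Subgroup G, ∀ a ∈ A, P K a → SC E K a)
    (hH : Good A E H) (h : Tower A P H K) : Good A E K := by
  induction h with
  | base => exact hH
  | @normal K L h0 h1 h2 h4 ih =>
    have hHK := h0.le
    refine good_normal hAinv hEconj hAE ?_ ?_ h1 h2 h4 ih
    · have := Subgroup.card_le_of_le hHK
      omega
    · intro z hz a ha
      obtain ⟨n, hn, h5⟩ := hHE z hz a ha
      exact ⟨n, hHK hn, h5⟩
  | @full K L h0 h1 h2 h4 ih =>
    exact good_full hAinv hE1 hE3 h1 (fun a ha haL haK => hPS K a ha (h4 a ha haL haK)) h2 ih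

end Pool.Agent.Helper43.TW
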