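import Pool.Agent.Helper43.CQ.LiftTwo
import Pool.Agent.Helper43.CQ.BaseOne

/-!
# Hamiltonian paths as lists and as permutations
-/

set_option autoImplicit false

namespace Pool.Agent.Helper43.TW

open Equiv
open Pool.Agent.Helper43.CQ

variable {V : Type*} {G : Type*} [Group G]

theorem perm_of_HP {r : V → V → Prop} {S : Set V} {x y : V} (h : HP r S x y) :
    ∃ k : Perm V, k.IsCycleOn S ∧ (∀ z, z ∉ S → k z = z) ∧ k y = x ∧
      ∀ z ∈ S, z ≠ y → r z (k z) := by
  classical
  obtain ⟨l, h1, h2, h3, h4, h5⟩ := h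
  have hset : {a | a ∈ l} = S := by
    ext z
    exact h2 z
  have hlen : 0 < l.length := by
    rw [List.length_pos_iff]
    rintro rfl
    simp at h4
  have hap := List.formPerm_apply_getElem l h1
  have hy : l[l.length - 1]'(by omega) = y := by
    rw [List.getLast?_eq_getElem?, List.getElem?_eq_getElem (by omega)] at h5
    exact Option.some.inj h5
  have hx : l[0] = x := by
    rw [List.head?_eq_getElem?, List.getElem?_eq_getElem hlen] at h4
    exact Option.some.inj h4
  refine ⟨l.formPerm, ?_, ?_, ?_, ?_⟩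
  · rw [← hset]
    exact h1.isCycleOn_formPerm
  · intro z hz
    refine List.formPerm_apply_of_notMem fun h => hz ((h2 z).1 h)
  · have h6 := hap (l.length - 1) (by omega)
    rw [hy] at h6
    rw [h6, ← hx]
    congr 1
    rw [show l.length - 1 + 1 = l.length by omega, Nat.mod_self]
  · intro z hz hzy
    obtain ⟨i, hi, rfl⟩ := List.getElem_of_mem ((h2 z).2 hz)
    have hi2 : i + 1 < l.length := by
      by_contra h6
      apply hzy
      rw [← hy]
      congr 1
      omega
    rw [hap i hi]
    have h6 := List.isChain_iff_getElem.1 h3 i hi2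
    have h7 : l[(i + 1) % l.length]'(Nat.mod_lt _ hlen) = l[i + 1] := by
      congr 1
      exact Nat.mod_eq_of_lt hi2
    rw [h7]
    exact h6

theorem HP_of_perm [Finite V] {r : V → V → Prop} {S : Set V} {x y : V} {k : Perm V}
    (hk : k.IsCycleOn S) (hy : y ∈ S) (hky : k y = x) (hr : ∀ z ∈ S, z ≠ y → r z (k z)) :
    HP r S x y := by
  classical
  have := Fintype.ofFinite V
  set s : Finset V := S.toFinset with hs
  have hk' : k.IsCycleOn (s : Set V) := by
    rw [hs, Set.coe_toFinset]
    exact hk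
  have hmem : ∀ v, v ∈ s ↔ v ∈ S := fun v => by rw [hs, Set.mem_toFinset]
  have hys : y ∈ s := (hmem y).2 hy
  have hxs : x ∈ s := by
    rw [hmem, ← hky]
    exact hk.1.mapsTo hy
  have hpos : 0 < s.card := Finset.card_pos.2 ⟨x, hxs⟩
  have hpow : ∀ i : ℕ, (k ^ i) x ∈ s := by
    intro i
    induction i with
    | zero => exact hxs
    | succ i ih =>
      rw [pow_succ', Perm.mul_apply]
      exact (hmem _).2 (hk.1.mapsTo ((hmem _).1 ih))
  have hlast : (k ^ (s.card - 1)) x = y := by
    apply k.injective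
    rw [hky, ← Perm.mul_apply, ← pow_succ', show s.card - 1 + 1 = s.card by omega]
    exact hk'.pow_card_apply hxs
  have hinj : ∀ i j, i ≤ s.card - 1 → j ≤ s.card - 1 → (k ^ i) x = (k ^ j) x → i = j := by
    intro i j hi hj h
    have h1 := (hk'.pow_apply_eq_pow_apply hxs).1 h
    exact Nat.ModEq.eq_of_lt_of_lt h1 (by omega) (by omega)
  refine HP.seq (fun i => (k ^ i) x) (s.card - 1) hinj ?_ ?_ rfl hlast
  · intro i hi
    show r ((k ^ i) x) ((k ^ (i + 1)) x)
    rw [pow_succ', Perm.mul_apply]
    refine hr _ ((hmem _).1 (hpow i)) ?_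
    intro h
    rw [← hlast] at h
    have := hinj i (s.card - 1) (by omega) le_rfl h
    omega
  · intro v
    rw [← hmem]
    constructor
    · intro hv
      obtain ⟨n, hn, hnv⟩ := hk'.exists_pow_eq hxs hv
      exact ⟨n, by omega, hnv⟩
    · rintro ⟨i, -, rfl⟩
      exact hpow i

/-- translation of a Hamiltonian path of a subgroup -/
theorem HP_coset {A : Set G} {K : Subgroup G} {x y : G}
    (h : HP (cadj A) (K : Set G) 1 (x⁻¹ * y)) :
    HP (cadj A) {v | x⁻¹ * v ∈ K} x y := by
  refine h.map (fun z => x * z) (fun a _ b _ hab => mul_left_cancel hab) ?_ ?_ (mul_one x)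
    (mul_inv_cancel_left x y)
  · intro a _ b _ hab
    show (x * a)⁻¹ * (x * b) ∈ A
    have : (x * a)⁻¹ * (x * b) = a⁻¹ * b := by group
    rw [this]
    exact hab
  · intro w
    constructor
    · intro hw
      exact ⟨x⁻¹ * w, hw, mul_inv_cancel_left x w⟩
    · rintro ⟨v, hv, rfl⟩
      show x⁻¹ * (x * v) ∈ K
      rwa [inv_mul_cancel_left]

/-- translation of a Hamiltonian path of the group -/
theorem HP_translate {A : Set G} {x y : G} (h : HP (cadj A) Set.univ x y) (g : G) :
    HP (cadj A) Set.univ (g * x) (g * y) := by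
  refine h.map (fun z => g * z) (fun a _ b _ hab => mul_left_cancel hab) ?_ ?_ rfl rfl
  · intro a _ b _ hab
    show (g * a)⁻¹ * (g * b) ∈ A
    have : (g * a)⁻¹ * (g * b) = a⁻¹ * b := by group
    rw [this]
    exact hab
  · intro w
    simp only [Set.mem_univ, true_and, true_iff]
    exact ⟨g⁻¹ * w, mul_inv_cancel_left g w⟩

end Pool.Agent.Helper43.TW
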