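import Mathlib

/-!
# Hamilton-connected subgroups and towers: definitions
-/

set_option autoImplicit false

namespace Pool.Agent.Helper43.TW

variable {G : Type*} [Group G]

/-- There is a Hamiltonian path of the subgroup `K` from `x` to `y` with steps in `A`: a sequence
`x = w 0, w 1, …, w (|K| - 1) = y` of pairwise distinct elements of `K` with
`(w i)⁻¹ * w (i + 1) ∈ A`. -/
def HamPath (A : Set G) (K : Subgroup G) (x y : G) : Prop :=
  ∃ w : ℕ → G, w 0 = x ∧ w (Nat.card K - 1) = y ∧ (∀ i < Nat.card K, w i ∈ K) ∧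
    (∀ i, i + 1 < Nat.card K → (w i)⁻¹ * w (i + 1) ∈ A) ∧
    ∀ i j, i < Nat.card K → j < Nat.card K → w i = w j → i = j

/-- `Cay(K, A ∩ K)` is Hamilton-connected. -/
def HamConnected (A : Set G) (K : Subgroup G) : Prop :=
  ∀ x ∈ K, ∀ y ∈ K, x ≠ y → HamPath A K x y

/-- `Cay(K, A ∩ K)` has Hamiltonian paths between any two elements at which `χ` has different
values (Hamilton-laceable, when `χ a = -1` for all `a ∈ A`). -/
def Laceable (A : Set G) (χ : G →* ℤˣ) (K : Subgroup G) : Prop :=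
  ∀ x ∈ K, ∀ y ∈ K, χ x ≠ χ y → HamPath A K x y

/-- The group `K ∩ a K a⁻¹` has at least three elements. -/
def Wide (K : Subgroup G) (a : G) : Prop := 3 ≤ {s | s ∈ K ∧ a⁻¹ * s * a ∈ K}.ncard

/-- The group `K ∩ a K a⁻¹` contains an element `s` with `χ s = -1`. -/
def Mixed (χ : G →* ℤˣ) (K : Subgroup G) (a : G) : Prop := ∃ s ∈ K, a⁻¹ * s * a ∈ K ∧ χ s = -1

/-- `Tower A P H K`: one gets from the subgroup `H` to `K` by finitely many steps `K' ≤ L` of the
following two kinds.
* normal: `K'` is normal in `L`, and `L` is generated by `A ∩ L`;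
* full: `A` meets all double cosets `K' g K'`, `g ∈ L`, `g ∉ K'` (if `L` acts doubly transitively
  on the cosets of `K'` there is only one), and `P K' a` holds for all `a ∈ A ∩ L` not in `K'`. -/
inductive Tower (A : Set G) (P : Subgroup G → G → Prop) (H : Subgroup G) : Subgroup G → Prop
  | base : Tower A P H H
  | normal {K' L : Subgroup G} : Tower A P H K' → K' ≤ L → Subgroup.closure (A ∩ L) = L →
      (∀ g ∈ L, ∀ x ∈ K', g * x * g⁻¹ ∈ K') → Tower A P H L
  | full {K' L : Subgroup G} : Tower A P H K' → K' ≤ L →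
      (∀ g ∈ L, g ∉ K' → ∃ k ∈ K', ∃ a ∈ A, ∃ k' ∈ K', g = k * a * k') →
      (∀ a ∈ A, a ∈ L → a ∉ K' → P K' a) → Tower A P H L

/-- The graph of the cosets of `K` is Hamiltonian: `c 0 K, c 1 K, …, c (n - 1) K` are the
`n = [G : K]` left cosets of `K`, and `c n K = c 0 K`; each of them contains `c i k a` with
`k ∈ K`, `a ∈ A`, for the preceding coset `c i K`. -/
def CosetCycle (A : Set G) (K : Subgroup G) : Prop :=
  ∃ c : ℕ → G, (∀ i j, i < K.index → j < K.index → (c i)⁻¹ * c j ∈ K → i = j) ∧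
    (c K.index)⁻¹ * c 0 ∈ K ∧ ∀ i < K.index, ∃ k ∈ K, ∃ a ∈ A, a ∉ K ∧ ∃ k' ∈ K,
      (c i)⁻¹ * c (i + 1) = k * a * k'

/-- `l = [a_1, …, a_n]` is a listing sequence of elements of `A`: its length `n` is `|G|`, all its
terms lie in `A`, and the partial products `a_1 ⋯ a_k`, `1 ≤ k ≤ n`, are pairwise distinct. -/
def Listing (A : Set G) (l : List G) : Prop :=
  l.length = Nat.card G ∧ (∀ a ∈ l, a ∈ A) ∧
    ∀ i j : ℕ, 1 ≤ i → i ≤ Nat.card G → 1 ≤ j → j ≤ Nat.card G →
      (l.take i).prod = (l.take j).prod → i = j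

end Pool.Agent.Helper43.TW
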