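import Pool.Agent.Helper43.TW.Conv

/-!
# The doubly transitive step
-/

set_option autoImplicit false

namespace Pool.Agent.Helper43.TW

open Finset
open Pool.Agent.Helper43.CQ

variable {V : Type*} {G : Type*} [Group G]

theorem list_split {P : V → Prop} : ∀ (l : List V) (x : V), l.head? = some x → P x →
    (∃ w ∈ l, ¬ P w) → ∃ l₁ l₂ u v, l = l₁ ++ v :: l₂ ∧ l₁.getLast? = some u ∧ P u ∧ ¬ P v := by
  intro l
  induction l with
  | nil =>
    intro x h
    simp at h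
  | cons a l ih =>
    intro x h hx hw
    simp only [List.head?_cons, Option.some.injEq] at h
    subst h
    cases l with
    | nil =>
      obtain ⟨w, hw, hPw⟩ := hw
      rw [List.mem_singleton] at hw
      exact absurd (hw ▸ hx) hPw
    | cons b l =>
      by_cases hb : P b
      · obtain ⟨l₁, l₂, u, v, h1, h2, h3, h4⟩ := ih b rfl hb (by
          obtain ⟨w, hw, hPw⟩ := hw
          rw [List.mem_cons] at hw
          rcases hw with rfl | hw
          · exact absurd hx hPw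
          · exact ⟨w, hw, hPw⟩)
        refine ⟨a :: l₁, l₂, u, v, ?_, ?_, h3, h4⟩
        · rw [h1, List.cons_append]
        · cases l₁ with
          | nil => simp at h2
          | cons c l₁ =>
            rw [List.getLast?_cons_cons]
            exact h2
      · exact ⟨[a], l, a, b, rfl, rfl, hx, hb⟩

/-- cutting a Hamiltonian path where a property fails for the first time -/
theorem HP_split {r : V → V → Prop} {S : Set V} {x y : V} (h : HP r S x y) {P : V → Prop}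
    (hx : P x) (hw : ∃ w ∈ S, ¬ P w) : ∃ S₁ S₂ u v, HP r S₁ x u ∧ HP r S₂ v y ∧ r u v ∧ P u ∧
      ¬ P v ∧ (∀ w, w ∈ S₁ → w ∉ S₂) ∧ (∀ w, w ∈ S ↔ w ∈ S₁ ∨ w ∈ S₂) := by
  obtain ⟨l, h1, h2, h3, h4, h5⟩ := h
  obtain ⟨w, hwS, hPw⟩ := hw
  obtain ⟨l₁, l₂, u, v, rfl, hu, hPu, hPv⟩ := list_split l x h4 hx ⟨w, (h2 w).2 hwS, hPw⟩
  rw [List.isChain_append] at h3
  rw [List.nodup_append] at h1
  refine ⟨{v | v ∈ l₁}, {w | w ∈ v :: l₂}, u, v, ⟨l₁, h1.1, fun v => Iff.rfl, h3.1, ?_, hu⟩,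
    ⟨v :: l₂, h1.2.1, fun v => Iff.rfl, h3.2.1, rfl, ?_⟩, ?_, hPu, hPv, ?_, ?_⟩
  · rw [List.head?_append] at h4
    cases l₁ with
    | nil => simp at hu
    | cons a l => simpa using h4
  · rw [List.getLast?_append] at h5
    rw [← h5]
    cases hh : (v :: l₂).getLast? with
    | none => simp at hh
    | some w => rfl
  · exact h3.2.2 u (by rw [hu]; rfl) v rfl
  · intro v hv hv'
    exact h1.2.2 v hv v hv' rfl
  · intro v
    rw [← h2, List.mem_append]
    rfl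

/-- Hamiltonian paths through sets of cosets -/
theorem route_sets [Finite G] {A E : Set G} {K : Subgroup G}
    (hK : ∀ y ∈ K, y ∈ E → HP (cadj A) (K : Set G) 1 y)
    (hD : ∀ x y : G, x⁻¹ * y ∈ E → ∀ C : G ⧸ K, C ≠ QuotientGroup.mk x →
      ∃ u : G, (QuotientGroup.mk u : G ⧸ K) = QuotientGroup.mk x ∧ ∃ a ∈ A,
        (QuotientGroup.mk (u * a) : G ⧸ K) = C ∧ x⁻¹ * u ∈ E ∧ (u * a)⁻¹ * y ∈ E) :
    ∀ (n : ℕ) (𝒮 : Finset (G ⧸ K)), 𝒮.card = n + 1 → ∀ x y : G, x⁻¹ * y ∈ E →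
      (QuotientGroup.mk x : G ⧸ K) ∈ 𝒮 → (QuotientGroup.mk y : G ⧸ K) ∈ 𝒮 →
      ((QuotientGroup.mk x : G ⧸ K) ≠ QuotientGroup.mk y ∨ n = 0) →
      HP (cadj A) {v | (QuotientGroup.mk v : G ⧸ K) ∈ 𝒮} x y := by
  classical
  intro n
  induction n with
  | zero =>
    intro 𝒮 hcard x y hxy hx hy _
    obtain ⟨C, hC⟩ := Finset.card_eq_one.1 hcard
    rw [hC, Finset.mem_singleton] at hx hy
    have hxyK : x⁻¹ * y ∈ K := by rw [← QuotientGroup.eq, hx, hy]
    have h1 := HP_coset (hK _ hxyK hxy)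
    have h2 : {v | (QuotientGroup.mk v : G ⧸ K) ∈ 𝒮} = {v | x⁻¹ * v ∈ K} := by
      ext v
      show (QuotientGroup.mk v : G ⧸ K) ∈ 𝒮 ↔ x⁻¹ * v ∈ K
      rw [hC, Finset.mem_singleton, ← hx, eq_comm, QuotientGroup.eq]
    rw [h2]
    exact h1
  | succ n ih =>
    intro 𝒮 hcard x y hxy hx hy hne
    have hne' : (QuotientGroup.mk x : G ⧸ K) ≠ QuotientGroup.mk y := by
      rcases hne with h | h
      · exact h
      · omega
    obtain ⟨C, hC𝒮, hCx, hCy⟩ : ∃ C ∈ 𝒮, C ≠ QuotientGroup.mk x ∧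
        (C ≠ QuotientGroup.mk y ∨ n = 0) := by
      rcases Nat.eq_zero_or_pos n with h | h
      · exact ⟨_, hy, hne'.symm, Or.inr h⟩
      · have h1 : 0 < ((𝒮.erase (QuotientGroup.mk x)).erase (QuotientGroup.mk y)).card := by
          rw [Finset.card_erase_of_mem (Finset.mem_erase.2 ⟨hne'.symm, hy⟩),
            Finset.card_erase_of_mem hx]
          omega
        obtain ⟨C, hC⟩ := Finset.card_pos.1 h1
        rw [Finset.mem_erase, Finset.mem_erase] at hC
        exact ⟨C, hC.2.2, hC.2.1, Or.inl hC.1⟩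
    obtain ⟨u, hu, a, ha, hua, hxu, huy⟩ := hD x y hxy C hCx
    have hcard' : (𝒮.erase (QuotientGroup.mk x)).card = n + 1 := by
      rw [Finset.card_erase_of_mem hx, hcard]
      rfl
    have h1 := ih (𝒮.erase (QuotientGroup.mk x)) hcard' (u * a) y huy
      (by rw [hua]; exact Finset.mem_erase.2 ⟨hCx, hC𝒮⟩) (Finset.mem_erase.2 ⟨hne'.symm, hy⟩)
      (by rw [hua]; exact hCy)
    have hxuK : x⁻¹ * u ∈ K := by rw [← QuotientGroup.eq, hu]
    have h2 := HP_coset (hK _ hxuK hxu)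
    have hmem : ∀ v, v ∈ {v | x⁻¹ * v ∈ K} ↔
        (QuotientGroup.mk v : G ⧸ K) = QuotientGroup.mk x := by
      intro v
      show x⁻¹ * v ∈ K ↔ _
      rw [eq_comm, QuotientGroup.eq]
    refine h2.append' h1 ?_ ?_ ?_
    · show u⁻¹ * (u * a) ∈ A
      rwa [inv_mul_cancel_left]
    · intro v hv hv'
      have h3 : (QuotientGroup.mk v : G ⧸ K) ∈ 𝒮.erase (QuotientGroup.mk x) := hv'
      rw [(hmem v).1 hv] at h3
      exact (Finset.mem_erase.1 h3).1 rfl
    · intro v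
      rw [hmem]
      show (QuotientGroup.mk v : G ⧸ K) ∈ 𝒮 ↔ _ ∨
        (QuotientGroup.mk v : G ⧸ K) ∈ 𝒮.erase (QuotientGroup.mk x)
      rw [Finset.mem_erase]
      constructor
      · intro hv
        by_cases h3 : (QuotientGroup.mk v : G ⧸ K) = QuotientGroup.mk x
        · exact Or.inl h3
        · exact Or.inr ⟨h3, hv⟩
      · rintro (h3 | h3)
        · rw [h3]
          exact hx
        · exact h3.2

/-- **The step with complete coset graph**, abstract form. -/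
theorem double_step [Finite G] {A E : Set G} {K : Subgroup G} (hAinv : ∀ a ∈ A, a⁻¹ ∈ A)
    (hE1 : (1 : G) ∉ E)
    (hE3 : ∀ a ∈ A, ∀ b ∈ A, ∀ c ∈ A, a * b * c ≠ 1 → a * b * c ∈ E)
    (hK : ∀ y ∈ K, y ∈ E → HP (cadj A) (K : Set G) 1 y)
    (hD : ∀ x y : G, x⁻¹ * y ∈ E → ∀ C : G ⧸ K, C ≠ QuotientGroup.mk x →
      ∃ u : G, (QuotientGroup.mk u : G ⧸ K) = QuotientGroup.mk x ∧ ∃ a ∈ A,
        (QuotientGroup.mk (u * a) : G ⧸ K) = C ∧ x⁻¹ * u ∈ E ∧ (u * a)⁻¹ * y ∈ E)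
    (ha : ∃ a ∈ A, a ∉ K)
    (hcov : ∀ g, g ∉ K → ∃ k ∈ K, ∃ a ∈ A, a ∉ K ∧
      (QuotientGroup.mk (k * a) : G ⧸ K) = QuotientGroup.mk g) :
    ∀ y ∈ E, HP (cadj A) Set.univ 1 y := by
  classical
  intro y hyE
  have := Fintype.ofFinite (G ⧸ K)
  obtain ⟨a₀, ha₀, ha₀K⟩ := ha
  have hmk1 : ∀ g : G, (QuotientGroup.mk g : G ⧸ K) = QuotientGroup.mk 1 ↔ g ∈ K := by
    intro g
    rw [eq_comm, QuotientGroup.eq, inv_one, one_mul]
  by_cases hyK : y ∈ K
  · -- both ends in the same coset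
    have h0 := hK y hyK hyE
    have hy1 : y ≠ 1 := fun h => hE1 (h ▸ hyE)
    set 𝒮 : Finset (G ⧸ K) := univ.erase (QuotientGroup.mk 1) with h𝒮
    have hka : ∀ k ∈ K, ∀ a, a ∉ K → (QuotientGroup.mk (k * a) : G ⧸ K) ∈ 𝒮 := by
      intro k hk a haK
      rw [h𝒮, Finset.mem_erase]
      refine ⟨fun h => haK ?_, mem_univ _⟩
      rw [hmk1] at h
      have := K.mul_mem (K.inv_mem hk) h
      rwa [inv_mul_cancel_left] at this
    have hpos : 0 < 𝒮.card := Finset.card_pos.2 ⟨_, hka 1 K.one_mem a₀ ha₀K⟩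
    have hcut : ∃ S₁ S₂ u v, HP (cadj A) S₁ 1 u ∧ HP (cadj A) S₂ v y ∧ cadj A u v ∧
        (∀ w, w ∈ S₁ → w ∉ S₂) ∧ (∀ w, w ∈ (K : Set G) ↔ w ∈ S₁ ∨ w ∈ S₂) ∧
        ∃ a ∈ A, a ∉ K ∧ ∃ a' ∈ A, a' ∉ K ∧ u * a ≠ v * a' ∧
        ((QuotientGroup.mk (u * a) : G ⧸ K) ≠ QuotientGroup.mk (v * a') ∨ 𝒮.card - 1 = 0) := by
      by_cases hone : 𝒮.card = 1
      · obtain ⟨S₁, S₂, u, v, h1, h2, h3, -, -, h4, h5⟩ := HP_split h0 (P := fun v => v = 1) rfl
          ⟨y, hyK, hy1⟩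
        refine ⟨S₁, S₂, u, v, h1, h2, h3, h4, h5, a₀, ha₀, ha₀K, a₀, ha₀, ha₀K, ?_,
          Or.inr (by omega)⟩
        intro h
        have h6 := mul_right_cancel h
        subst h6
        exact h4 u h1.right_mem h2.left_mem
      · by_cases hP1 : ∀ a ∈ A, a ∉ K → (QuotientGroup.mk (1 * a) : G ⧸ K) = QuotientGroup.mk a₀
        · obtain ⟨C, hC⟩ : ∃ C, C ∈ 𝒮.erase (QuotientGroup.mk (1 * a₀)) := by
            rw [← Finset.Nonempty, ← Finset.card_pos,
              Finset.card_erase_of_mem (hka 1 K.one_mem a₀ ha₀K)]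
            omega
          rw [Finset.mem_erase, h𝒮, Finset.mem_erase, one_mul] at hC
          obtain ⟨g, rfl⟩ := QuotientGroup.mk_surjective C
          obtain ⟨k, hk, a, ha, haK, hkg⟩ := hcov g (fun h => hC.2.1 ((hmk1 g).2 h))
          obtain ⟨S₁, S₂, u, v, h1, h2, h3, h6, h7, h4, h5⟩ := HP_split h0
            (P := fun v => ∀ a ∈ A, a ∉ K →
              (QuotientGroup.mk (v * a) : G ⧸ K) = QuotientGroup.mk a₀) hP1
            ⟨k, hk, fun h => hC.1 (by rw [← hkg]; exact h a ha haK)⟩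
          push Not at h7
          obtain ⟨a', ha', ha'K, h8⟩ := h7
          have h9 : (QuotientGroup.mk (u * a₀) : G ⧸ K) ≠ QuotientGroup.mk (v * a') := by
            rw [h6 a₀ ha₀ ha₀K]
            exact h8.symm
          exact ⟨S₁, S₂, u, v, h1, h2, h3, h4, h5, a₀, ha₀, ha₀K, a', ha', ha'K,
            fun h => h9 (by rw [h]), Or.inl h9⟩
        · push Not at hP1
          obtain ⟨a₁, ha₁, ha₁K, h10⟩ := hP1
          obtain ⟨S₁, S₂, u, v, h1, h2, h3, h6, -, h4, h5⟩ := HP_split h0 (P := fun v => v = 1)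
            rfl ⟨y, hyK, hy1⟩
          subst h6
          by_cases h11 : (QuotientGroup.mk (v * a₀) : G ⧸ K) = QuotientGroup.mk a₀
          · have h9 : (QuotientGroup.mk (1 * a₁) : G ⧸ K) ≠ QuotientGroup.mk (v * a₀) := by
              rw [h11]
              exact h10
            exact ⟨S₁, S₂, 1, v, h1, h2, h3, h4, h5, a₁, ha₁, ha₁K, a₀, ha₀, ha₀K,
              fun h => h9 (by rw [h]), Or.inl h9⟩
          · have h9 : (QuotientGroup.mk (1 * a₀) : G ⧸ K) ≠ QuotientGroup.mk (v * a₀) := by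
              rw [one_mul]
              exact fun h => h11 h.symm
            exact ⟨S₁, S₂, 1, v, h1, h2, h3, h4, h5, a₀, ha₀, ha₀K, a₀, ha₀, ha₀K,
              fun h => h9 (by rw [h]), Or.inl h9⟩
    obtain ⟨S₁, S₂, u, v, h1, h2, h3, h4, h5, a, ha, haK, a', ha', ha'K, hne, h6⟩ := hcut
    have huK : u ∈ K := (h5 u).2 (Or.inl h1.right_mem)
    have hvK : v ∈ K := (h5 v).2 (Or.inr h2.left_mem)
    have huva : (u * a)⁻¹ * (v * a') ∈ E := by
      have h8 : (u * a)⁻¹ * (v * a') = a⁻¹ * (u⁻¹ * v) * a' := by group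
      rw [h8]
      refine hE3 _ (hAinv a ha) _ h3 _ ha' ?_
      rw [← h8]
      intro h
      rw [inv_mul_eq_one] at h
      exact hne h
    have h7 := route_sets hK hD (𝒮.card - 1) 𝒮 (by omega) (u * a) (v * a') huva
      (hka u huK a haK) (hka v hvK a' ha'K) h6
    have h𝒮mem : ∀ w, w ∈ {v | (QuotientGroup.mk v : G ⧸ K) ∈ 𝒮} ↔ w ∉ K := by
      intro w
      show (QuotientGroup.mk w : G ⧸ K) ∈ 𝒮 ↔ _
      rw [h𝒮, Finset.mem_erase, ne_eq, hmk1]
      simp
    have h8 := (h1.append h7 (show u⁻¹ * (u * a) ∈ A by rwa [inv_mul_cancel_left]) (by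
      intro w hw hw'
      exact (h𝒮mem w).1 hw' ((h5 w).2 (Or.inl hw)))).append' (U := Set.univ) h2
      (show (v * a')⁻¹ * v ∈ A by
        have : (v * a')⁻¹ * v = a'⁻¹ := by group
        rw [this]
        exact hAinv a' ha') (by
      rintro w (hw | hw) hw'
      · exact h4 w hw hw'
      · exact (h𝒮mem w).1 hw ((h5 w).2 (Or.inr hw'))) (by
      intro w
      simp only [Set.mem_univ, true_iff]
      by_cases hw : w ∈ K
      · rcases (h5 w).1 hw with h | h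
        · exact Or.inl (Or.inl h)
        · exact Or.inr h
      · exact Or.inl (Or.inr ((h𝒮mem w).2 hw)))
    exact h8
  · -- the ends in different cosets
    have hne : (QuotientGroup.mk 1 : G ⧸ K) ≠ QuotientGroup.mk y := fun h => hyK ((hmk1 y).1 h.symm)
    have hpos : 0 < (univ : Finset (G ⧸ K)).card := Finset.card_pos.2 ⟨QuotientGroup.mk 1, mem_univ _⟩
    have h1 := route_sets hK hD ((univ : Finset (G ⧸ K)).card - 1) univ (by omega) 1 y
      (by rwa [inv_one, one_mul]) (mem_univ _) (mem_univ _) (Or.inl hne)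
    have h2 : {v | (QuotientGroup.mk v : G ⧸ K) ∈ (univ : Finset (G ⧸ K))} = Set.univ := by
      ext v
      simp
    rw [h2] at h1
    exact h1

end Pool.Agent.Helper43.TW
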