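import Pool.Agent.Helper43.TW.Conv

/-!
# Merging fibres: Hamiltonian paths
-/

set_option autoImplicit false

namespace Pool.Agent.Helper43.TW

open Finset SimpleGraph Equiv
open Pool.Agent.Q112.CH Q238.RS Pool.Agent.Helper43.CQ

variable {G : Type*} [Group G]

/-- the state of the merging process; the step from `e` to `x₀` is not an edge of the graph -/
structure St3 (A : Set G) (N : Subgroup G) [N.Normal] (T : SimpleGraph (G ⧸ N)) (L : Set G)
    (x₀ e : G) (S : Set (G ⧸ N)) (f : Perm G) (pl : (G ⧸ N) → (G ⧸ N) → G) : Prop where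
  cyc : f.IsCycleOn {x | (QuotientGroup.mk x : G ⧸ N) ∈ S}
  fix : ∀ x, (QuotientGroup.mk x : G ⧸ N) ∉ S → f x = x
  emem : (QuotientGroup.mk e : G ⧸ N) ∈ S
  ex : f e = x₀
  adj : ∀ x, (QuotientGroup.mk x : G ⧸ N) ∈ S → x ≠ e → x⁻¹ * f x ∈ A
  place : ∀ F ∈ S, ∀ F', F' ∉ S → T.Adj F F' → (QuotientGroup.mk (pl F F') : G ⧸ N) = F ∧
    pl F F' ≠ e ∧ (pl F F')⁻¹ * f (pl F F') ∈ L
  inj : ∀ F ∈ S, ∀ F', F' ∉ S → ∀ F'', F'' ∉ S → T.Adj F F' → T.Adj F F'' →
    pl F F' = pl F F'' → F' = F''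

theorem St3.extend [Finite G] {A : Set G} {N : Subgroup G} [N.Normal] {T : SimpleGraph (G ⧸ N)}
    {L : Set G} {x₀ e : G} {S : Set (G ⧸ N)} {f : Perm G} {pl : (G ⧸ N) → (G ⧸ N) → G}
    (h : St3 A N T L x₀ e S f pl) (hAinv : ∀ a ∈ A, a⁻¹ ∈ A)
    (hLN : ∀ b ∈ L, b ∈ N)
    (hP : ∀ a ∈ A, ∀ b ∈ L, HPathTwo A L L N (a⁻¹ * b * a))
    (hTA : ∀ F F' : G ⧸ N, T.Adj F F' → ∃ a ∈ A, F' = F * QuotientGroup.mk a)
    (hdeg : ∀ F, {F' | T.Adj F F'}.ncard ≤ 3) {F F' : G ⧸ N} (hF : F ∈ S)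
    (hF' : F' ∉ S) (hT : T.Adj F F') :
    ∃ f' pl', St3 A N T L x₀ e (insert F' S) f' pl' := by
  classical
  obtain ⟨huF, hue, hb⟩ := h.place F hF F' hF' hT
  obtain ⟨a, ha, hFa⟩ := hTA F F' hT
  set u := pl F F' with hu
  have huS : (QuotientGroup.mk u : G ⧸ N) ∈ S := by rw [huF]; exact hF
  set v := f u with hv
  set b := u⁻¹ * v with hbdef
  have hvb : v = u * b := by rw [hbdef, mul_inv_cancel_left]
  have hbN : b ∈ N := hLN b hb
  -- the neighbours of the new fibre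
  have : Inhabited (G ⧸ N) := ⟨F⟩
  obtain ⟨X, Y, hXY⟩ : ∃ X Y, {F'' | F'' ∉ insert F' S ∧ T.Adj F' F''} ⊆ {X, Y} := by
    refine sub_pair (Set.toFinite _) ?_
    have h1 : {F'' | F'' ∉ insert F' S ∧ T.Adj F' F''} ⊂ {F'' | T.Adj F' F''} := by
      refine ⟨fun x hx => hx.2, fun hc => ?_⟩
      have h2 : F ∈ {F'' | T.Adj F' F''} := hT.symm
      exact (hc h2).1 (Or.inr hF)
    have h2 := Set.ncard_lt_ncard h1 (Set.toFinite _)
    have h3 := hdeg F'
    omega
  obtain ⟨k0, hk01, hk02, hk03, hk04, z₁, hz₁, z₂, hz₂, hz₁₂, hz₁y, hz₂y, hzL₁, hzL₂⟩ :=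
    hP a ha b hb
  obtain ⟨k, hk1, hk2, hkap⟩ := coset_perm hk01 hk02 (u * a)
  have hva : u * a * (a⁻¹ * b * a) = v * a := by
    rw [hvb]
    group
  have hk3 : k (v * a) = u * a := by
    rw [hkap, ← hva, inv_mul_cancel_left, hk03, mul_one]
  have hk4 : ∀ z, (u * a)⁻¹ * z ∈ N → z ≠ v * a → z⁻¹ * k z ∈ A := by
    intro z hz hzv
    rw [hkap]
    have h1 := hk04 _ hz (fun h1 => hzv (by rw [← hva, ← h1, mul_inv_cancel_left]))
    rw [mul_inv_rev, inv_inv, mul_assoc] at h1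
    exact h1
  have hmk : ∀ z, (u * a)⁻¹ * z ∈ N ↔ (QuotientGroup.mk z : G ⧸ N) = F' := by
    intro z
    rw [← QuotientGroup.eq, hFa, ← huF]
    exact eq_comm
  have hset : {z | (u * a)⁻¹ * z ∈ N} = {z | (QuotientGroup.mk z : G ⧸ N) = F'} := by
    ext z
    exact hmk z
  rw [hset] at hk1
  have hvaF : (QuotientGroup.mk (v * a) : G ⧸ N) = F' := by
    rw [← hmk, hvb]
    have h1 : (u * a)⁻¹ * (u * b * a) = a⁻¹ * b * a⁻¹⁻¹ := by group
    rw [h1]
    exact Subgroup.Normal.conj_mem inferInstance b hbN a⁻¹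
  have huaF : (QuotientGroup.mk (u * a) : G ⧸ N) = F' := by
    rw [← hmk, inv_mul_cancel]
    exact one_mem N
  have hkout : ∀ z, (QuotientGroup.mk z : G ⧸ N) ≠ F' → k z = z := fun z hz =>
    hk2 z fun h1 => hz ((hmk z).1 h1)
  have hkin : ∀ z, (QuotientGroup.mk z : G ⧸ N) = F' → z ≠ v * a → z⁻¹ * k z ∈ A :=
    fun z hz => hk4 z ((hmk z).2 hz)
  have hdisj : Disjoint {x | (QuotientGroup.mk x : G ⧸ N) ∈ S}
      {z | (QuotientGroup.mk z : G ⧸ N) = F'} := by
    rw [Set.disjoint_left]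
    intro x hx hx'
    have hx1 : (QuotientGroup.mk x : G ⧸ N) ∈ S := hx
    have hx2 : (QuotientGroup.mk x : G ⧸ N) = F' := hx'
    rw [hx2] at hx1
    exact hF' hx1
  have hmerge := isCycleOn_merge (Set.toFinite _) (Set.toFinite _) h.cyc hk1 hdisj
    (fun x hx => h.fix x fun h1 => by
      have hx2 : (QuotientGroup.mk x : G ⧸ N) = F' := hx
      rw [hx2] at h1
      exact hF' h1)
    (fun x hx => hkout x fun h1 => by
      have hx1 : (QuotientGroup.mk x : G ⧸ N) ∈ S := hx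
      rw [h1] at hx1
      exact hF' hx1) (u := u) (w := v * a) huS hvaF
  have hunion : {x | (QuotientGroup.mk x : G ⧸ N) ∈ S} ∪ {z | (QuotientGroup.mk z : G ⧸ N) = F'} =
      {x | (QuotientGroup.mk x : G ⧸ N) ∈ insert F' S} := by
    ext x
    constructor
    · rintro (h1 | h1)
      · exact Or.inr h1
      · exact Or.inl h1
    · rintro (h1 | h1)
      · exact Or.inr h1
      · exact Or.inl h1
  rw [hunion] at hmerge
  -- values of the new permutation
  have hFu : (f * k * swap u (v * a)) u = u * a := by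
    rw [Perm.mul_apply, Perm.mul_apply, swap_apply_left, hk3]
    refine h.fix _ fun h1 => ?_
    rw [huaF] at h1
    exact hF' h1
  have hFw : (f * k * swap u (v * a)) (v * a) = v := by
    rw [Perm.mul_apply, Perm.mul_apply, swap_apply_right, hkout u, hv]
    intro h1
    rw [h1] at huS
    exact hF' huS
  have hFx : ∀ x, (QuotientGroup.mk x : G ⧸ N) ∈ S → x ≠ u →
      (f * k * swap u (v * a)) x = f x := by
    intro x hx hxu
    have hxF : (QuotientGroup.mk x : G ⧸ N) ≠ F' := by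
      intro h1
      rw [h1] at hx
      exact hF' hx
    rw [Perm.mul_apply, Perm.mul_apply, swap_apply_of_ne_of_ne hxu, hkout x hxF]
    rintro rfl
    exact hxF hvaF
  have hFz : ∀ x, (QuotientGroup.mk x : G ⧸ N) = F' → x ≠ v * a →
      (f * k * swap u (v * a)) x = k x := by
    intro x hx hxw
    rw [Perm.mul_apply, Perm.mul_apply, swap_apply_of_ne_of_ne _ hxw]
    · refine h.fix _ fun h1 => ?_
      have h2 : k x ∈ {z | (QuotientGroup.mk z : G ⧸ N) = F'} := hk1.1.mapsTo hx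
      have h3 : (QuotientGroup.mk (k x) : G ⧸ N) = F' := h2
      rw [h3] at h1
      exact hF' h1
    · rintro rfl
      rw [hx] at huS
      exact hF' huS
  have hFF' : F ≠ F' := fun h1 => hF' (h1 ▸ hF)
  -- the new places
  have hzF : ∀ z ∈ N, (QuotientGroup.mk (u * a * z) : G ⧸ N) = F' := by
    intro z hz
    rw [← hmk, inv_mul_cancel_left]
    exact hz
  have hzE : ∀ z ∈ N, u * a * z ≠ e := by
    intro z hz h1
    have h2 := h.emem
    rw [← h1, hzF z hz] at h2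
    exact hF' h2
  have hzne : ∀ z, z ≠ a⁻¹ * b * a → u * a * z ≠ v * a := by
    intro z hz h1
    apply hz
    rw [← hva] at h1
    exact mul_left_cancel h1
  have hzk : ∀ z, (u * a * z)⁻¹ * k (u * a * z) = z⁻¹ * k0 z := by
    intro z
    rw [hkap, inv_mul_cancel_left, mul_inv_rev, mul_assoc, inv_mul_cancel_left]
  refine ⟨f * k * swap u (v * a), fun F₁ F₂ => if F₁ = F' then
    (if F₂ = X then u * a * z₁ else u * a * z₂) else pl F₁ F₂, hmerge, ?_, ?_, ?_, ?_, ?_, ?_⟩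
  · intro x hx
    have h1 : (QuotientGroup.mk x : G ⧸ N) ∉ S := fun h1 => hx (Or.inr h1)
    have h2 : (QuotientGroup.mk x : G ⧸ N) ≠ F' := fun h2 => hx (Or.inl h2)
    rw [Perm.mul_apply, Perm.mul_apply, swap_apply_of_ne_of_ne, hkout x h2, h.fix x h1]
    · rintro rfl
      exact h1 huS
    · rintro rfl
      exact h2 hvaF
  · exact Or.inr h.emem
  · rw [hFx e h.emem (fun h1 => hue h1.symm), h.ex]
  · intro x hx hxe
    by_cases hxu : x = u
    · rw [hxu, hFu, inv_mul_cancel_left]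
      exact ha
    by_cases hxw : x = v * a
    · rw [hxw, hFw]
      have h1 : (v * a)⁻¹ * v = a⁻¹ := by group
      rw [h1]
      exact hAinv a ha
    rcases hx with hx | hx
    · rw [hFz x hx hxw]
      exact hkin x hx hxw
    · rw [hFx x hx hxu]
      exact h.adj x hx hxe
  · intro F₁ hF₁ F₂ hF₂ hT₁₂
    have hF₂' : F₂ ≠ F' := fun h1 => hF₂ (Or.inl h1)
    have hF₂S : F₂ ∉ S := fun h1 => hF₂ (Or.inr h1)
    by_cases h1 : F₁ = F'
    · subst h1
      simp only [if_true]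
      have h2 : F₂ ∈ ({X, Y} : Set (G ⧸ N)) := hXY ⟨hF₂, hT₁₂⟩
      by_cases h3 : F₂ = X
      · rw [if_pos h3]
        refine ⟨hzF z₁ hz₁, hzE z₁ hz₁, ?_⟩
        rw [hFz _ (hzF z₁ hz₁) (hzne z₁ hz₁y), hzk]
        exact hzL₁
      · rw [if_neg h3]
        have h4 : F₂ = Y := by
          rcases h2 with h2 | h2
          · exact absurd h2 h3
          · exact h2
        refine ⟨hzF z₂ hz₂, hzE z₂ hz₂, ?_⟩
        rw [hFz _ (hzF z₂ hz₂) (hzne z₂ hz₂y), hzk]
        exact hzL₂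
    · simp only [if_neg h1]
      have hF₁S : F₁ ∈ S := by
        rcases hF₁ with h2 | h2
        · exact absurd h2 h1
        · exact h2
      obtain ⟨h2, h3, h4⟩ := h.place F₁ hF₁S F₂ hF₂S hT₁₂
      refine ⟨h2, h3, ?_⟩
      rw [hFx _ (by rw [h2]; exact hF₁S)]
      · exact h4
      · intro h5
        have h6 : F₁ = F := by rw [← h2, h5, huF]
        subst h6
        exact hF₂' (h.inj F₁ hF₁S F₂ hF₂S F' hF' hT₁₂ hT h5)
  · intro F₁ hF₁ F₂ hF₂ F₃ hF₃ hT₂ hT₃ he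
    have hF₂S : F₂ ∉ S := fun h1 => hF₂ (Or.inr h1)
    have hF₃S : F₃ ∉ S := fun h1 => hF₃ (Or.inr h1)
    by_cases h1 : F₁ = F'
    · subst h1
      simp only [if_true] at he
      have h2 : F₂ ∈ ({X, Y} : Set (G ⧸ N)) := hXY ⟨hF₂, hT₂⟩
      have h3 : F₃ ∈ ({X, Y} : Set (G ⧸ N)) := hXY ⟨hF₃, hT₃⟩
      by_cases h4 : F₂ = X <;> by_cases h5 : F₃ = X
      · rw [h4, h5]
      · rw [if_pos h4, if_neg h5] at he
        exact absurd (mul_left_cancel he) hz₁₂
      · rw [if_neg h4, if_pos h5] at he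
        exact absurd (mul_left_cancel he).symm hz₁₂
      · rcases h2 with h2 | h2
        · exact absurd h2 h4
        rcases h3 with h3 | h3
        · exact absurd h3 h5
        rw [Set.mem_singleton_iff] at h2 h3
        rw [h2, h3]
    · simp only [if_neg h1] at he
      have hF₁S : F₁ ∈ S := by
        rcases hF₁ with h2 | h2
        · exact absurd h2 h1
        · exact h2
      exact h.inj F₁ hF₁S F₂ hF₂S F₃ hF₃S hT₂ hT₃ he


end Pool.Agent.Helper43.TW
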