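import Pool.Agent.Helper43.TW.Tops

/-!
# Symmetric groups
-/

set_option autoImplicit false

namespace Pool.Agent.Helper43.TW

open Equiv

/-- the permutations of `Fin n` which fix all points `≥ k`: the symmetric group of degree `k` -/
def below (n k : ℕ) : Subgroup (Perm (Fin n)) where
  carrier := {σ | ∀ i : Fin n, k ≤ i.val → σ i = i}
  one_mem' := fun _ _ => rfl
  mul_mem' := by
    intro σ τ hσ hτ i hi
    rw [Perm.mul_apply, hτ i hi, hσ i hi]
  inv_mem' := by
    intro σ hσ i hi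
    rw [Perm.inv_eq_iff_eq]
    exact (hσ i hi).symm

theorem mem_below {n k : ℕ} {σ : Perm (Fin n)} :
    σ ∈ below n k ↔ ∀ i : Fin n, k ≤ i.val → σ i = i := Iff.rfl

theorem below_mono {n k l : ℕ} (h : k ≤ l) : below n k ≤ below n l := by
  intro σ hσ i hi
  exact hσ i (h.trans hi)

theorem below_top (n : ℕ) : below n n = ⊤ := by
  rw [eq_top_iff]
  intro σ _ i hi
  exact absurd i.isLt (by omega)

theorem swap_below {n k : ℕ} {i j : Fin n} (hi : i.val < k) (hj : j.val < k) :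
    swap i j ∈ below n k := by
  intro l hl
  refine swap_apply_of_ne_of_ne ?_ ?_
  · rintro rfl
    omega
  · rintro rfl
    omega

theorem moves {n k : ℕ} (hk : k < n) {g : Perm (Fin n)} (hg : g ∈ below n (k + 1)) :
    g ∉ below n k ↔ g ⟨k, hk⟩ ≠ ⟨k, hk⟩ := by
  constructor
  · intro h h1
    apply h
    intro i hi
    rcases Nat.eq_or_lt_of_le hi with h2 | h2
    · have : i = ⟨k, hk⟩ := Fin.ext h2.symm
      rw [this]
      exact h1
    · exact hg i h2
  · intro h h1
    exact h (h1 _ le_rfl)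

theorem lt_of_moves {n k : ℕ} (hk : k < n) {g : Perm (Fin n)} (hg : g ∈ below n (k + 1))
    (hgk : g ∉ below n k) : (g ⟨k, hk⟩).val < k := by
  have h1 := (moves hk hg).1 hgk
  by_contra h2
  have h3 : k < (g ⟨k, hk⟩).val := by
    rcases Nat.lt_or_ge k (g ⟨k, hk⟩).val with h | h
    · exact h
    · exact absurd (Fin.ext (by show (g ⟨k, hk⟩).val = k; omega)) h1
  have h4 := hg (g ⟨k, hk⟩) h3
  exact h1 (g.injective h4)

theorem full_below {n k : ℕ} (hk : k < n) {a : Perm (Fin n)} (ha : a ∈ below n (k + 1))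
    (hak : a ∉ below n k) {g : Perm (Fin n)} (hg : g ∈ below n (k + 1)) (hgk : g ∉ below n k) :
    ∃ σ ∈ below n k, ∃ τ ∈ below n k, g = σ * a * τ := by
  have ha' : a⁻¹ ∉ below n k := fun h => hak (inv_mem_iff.1 h)
  have hg' : g⁻¹ ∉ below n k := fun h => hgk (inv_mem_iff.1 h)
  have h1 := lt_of_moves hk (inv_mem ha) ha'
  have h2 := lt_of_moves hk (inv_mem hg) hg'
  set τ : Perm (Fin n) := swap (g⁻¹ ⟨k, hk⟩) (a⁻¹ ⟨k, hk⟩) with hτ
  have hτk : τ ∈ below n k := swap_below h2 h1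
  refine ⟨g * τ⁻¹ * a⁻¹, ?_, τ, hτk, by group⟩
  have h3 : g * τ⁻¹ * a⁻¹ ∈ below n (k + 1) :=
    mul_mem (mul_mem hg (inv_mem (below_mono (Nat.le_succ k) hτk))) (inv_mem ha)
  by_contra h4
  apply (moves hk h3).1 h4
  rw [Perm.mul_apply, Perm.mul_apply, hτ, swap_inv, swap_apply_right]
  exact g.apply_symm_apply _

theorem inter_below {n k : ℕ} (hk : k < n) {a : Perm (Fin n)} (ha : a ∈ below n (k + 1))
    {s : Perm (Fin n)} (hs : s ∈ below n k) (hsa : s (a ⟨k, hk⟩) = a ⟨k, hk⟩) :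
    a⁻¹ * s * a ∈ below n k := by
  have h3 : a⁻¹ * s * a ∈ below n (k + 1) :=
    mul_mem (mul_mem (inv_mem ha) (below_mono (Nat.le_succ k) hs)) ha
  by_contra h4
  apply (moves hk h3).1 h4
  rw [Perm.mul_apply, Perm.mul_apply, hsa]
  exact a.symm_apply_apply _

theorem wide_below {n k : ℕ} (h4 : 4 ≤ k) (hk : k < n) {a : Perm (Fin n)}
    (ha : a ∈ below n (k + 1)) : Wide (below n k) a := by
  classical
  set c := a ⟨k, hk⟩ with hc
  -- three points below `k` different from `c`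
  obtain ⟨p, q, r, hp, hq, hr, hpq, hpr, hqr, hpc, hqc, hrc⟩ : ∃ p q r : Fin n, p.val < k ∧
      q.val < k ∧ r.val < k ∧ p ≠ q ∧ p ≠ r ∧ q ≠ r ∧ p ≠ c ∧ q ≠ c ∧ r ≠ c := by
    have hh : ∀ i : ℕ, i < 4 → i < n := fun i hi => by omega
    have hne : ∀ i j : ℕ, ∀ hi : i < n, ∀ hj : j < n, i ≠ j → (⟨i, hi⟩ : Fin n) ≠ ⟨j, hj⟩ :=
      fun i j _ _ h h' => h (congrArg Fin.val h')
    by_cases h0 : (⟨0, hh 0 (by omega)⟩ : Fin n) = c
    · refine ⟨⟨1, hh 1 (by omega)⟩, ⟨2, hh 2 (by omega)⟩, ⟨3, hh 3 (by omega)⟩, ?_, ?_, ?_, ?_, ?_,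
        ?_, ?_, ?_, ?_⟩
      · show 1 < k; omega
      · show 2 < k; omega
      · show 3 < k; omega
      all_goals first
        | exact hne _ _ _ _ (by omega)
        | rw [← h0]; exact hne _ _ _ _ (by omega)
    by_cases h1 : (⟨1, hh 1 (by omega)⟩ : Fin n) = c
    · refine ⟨⟨0, hh 0 (by omega)⟩, ⟨2, hh 2 (by omega)⟩, ⟨3, hh 3 (by omega)⟩, ?_, ?_, ?_, ?_, ?_,
        ?_, ?_, ?_, ?_⟩
      · show 0 < k; omega
      · show 2 < k; omega
      · show 3 < k; omega
      all_goals first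
        | exact hne _ _ _ _ (by omega)
        | rw [← h1]; exact hne _ _ _ _ (by omega)
    by_cases h2 : (⟨2, hh 2 (by omega)⟩ : Fin n) = c
    · refine ⟨⟨0, hh 0 (by omega)⟩, ⟨1, hh 1 (by omega)⟩, ⟨3, hh 3 (by omega)⟩, ?_, ?_, ?_, ?_, ?_,
        ?_, ?_, ?_, ?_⟩
      · show 0 < k; omega
      · show 1 < k; omega
      · show 3 < k; omega
      all_goals first
        | exact hne _ _ _ _ (by omega)
        | rw [← h2]; exact hne _ _ _ _ (by omega)
    refine ⟨⟨0, hh 0 (by omega)⟩, ⟨1, hh 1 (by omega)⟩, ⟨2, hh 2 (by omega)⟩, ?_, ?_, ?_, ?_, ?_,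
      ?_, h0, h1, h2⟩
    · show 0 < k; omega
    · show 1 < k; omega
    · show 2 < k; omega
    all_goals exact hne _ _ _ _ (by omega)
  have hmem : ∀ s : Perm (Fin n), s ∈ below n k → s c = c →
      s ∈ {s | s ∈ below n k ∧ a⁻¹ * s * a ∈ below n k} := fun s h1 h2 =>
    ⟨h1, inter_below hk ha h1 h2⟩
  have h1 : ({1, swap p q, swap p r} : Set (Perm (Fin n))) ⊆
      {s | s ∈ below n k ∧ a⁻¹ * s * a ∈ below n k} := by
    rintro s (rfl | rfl | rfl)
    · exact hmem 1 (one_mem _) rfl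
    · exact hmem _ (swap_below hp hq) (swap_apply_of_ne_of_ne hpc.symm hqc.symm)
    · exact hmem _ (swap_below hp hr) (swap_apply_of_ne_of_ne hpc.symm hrc.symm)
  have h2 : ({1, swap p q, swap p r} : Set (Perm (Fin n))).ncard = 3 := by
    rw [Set.ncard_eq_three]
    refine ⟨1, swap p q, swap p r, ?_, ?_, ?_, rfl⟩
    · intro h
      have := congrArg (fun σ : Perm (Fin n) => σ p) h
      simp only [Perm.one_apply, swap_apply_left] at this
      exact hpq this
    · intro h
      have := congrArg (fun σ : Perm (Fin n) => σ p) h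
      simp only [Perm.one_apply, swap_apply_left] at this
      exact hpr this
    · intro h
      have := congrArg (fun σ : Perm (Fin n) => σ p) h
      simp only [swap_apply_left] at this
      exact hqr this
  show 3 ≤ _
  rw [← h2]
  exact Set.ncard_le_ncard h1 (Set.toFinite _)

theorem mixed_below {n k : ℕ} (h3 : 3 ≤ k) (hk : k < n) {a : Perm (Fin n)}
    (ha : a ∈ below n (k + 1)) : Mixed Perm.sign (below n k) a := by
  classical
  set c := a ⟨k, hk⟩ with hc
  obtain ⟨p, q, hp, hq, hpq, hpc, hqc⟩ : ∃ p q : Fin n, p.val < k ∧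
      q.val < k ∧ p ≠ q ∧ p ≠ c ∧ q ≠ c := by
    have hh : ∀ i : ℕ, i < 3 → i < n := fun i hi => by omega
    have hne : ∀ i j : ℕ, ∀ hi : i < n, ∀ hj : j < n, i ≠ j → (⟨i, hi⟩ : Fin n) ≠ ⟨j, hj⟩ :=
      fun i j _ _ h h' => h (congrArg Fin.val h')
    by_cases h0 : (⟨0, hh 0 (by omega)⟩ : Fin n) = c
    · refine ⟨⟨1, hh 1 (by omega)⟩, ⟨2, hh 2 (by omega)⟩, ?_, ?_, ?_, ?_, ?_⟩
      · show 1 < k; omega
      · show 2 < k; omega
      all_goals first
        | exact hne _ _ _ _ (by omega)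
        | rw [← h0]; exact hne _ _ _ _ (by omega)
    by_cases h1 : (⟨1, hh 1 (by omega)⟩ : Fin n) = c
    · refine ⟨⟨0, hh 0 (by omega)⟩, ⟨2, hh 2 (by omega)⟩, ?_, ?_, ?_, ?_, ?_⟩
      · show 0 < k; omega
      · show 2 < k; omega
      all_goals first
        | exact hne _ _ _ _ (by omega)
        | rw [← h1]; exact hne _ _ _ _ (by omega)
    refine ⟨⟨0, hh 0 (by omega)⟩, ⟨1, hh 1 (by omega)⟩, ?_, ?_, ?_, h0, h1⟩
    · show 0 < k; omega
    · show 1 < k; omega
    · exact hne _ _ _ _ (by omega)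
  exact ⟨swap p q, swap_below hp hq, inter_below hk ha (swap_below hp hq)
    (swap_apply_of_ne_of_ne hpc.symm hqc.symm), Perm.sign_swap hpq⟩

theorem tower_below {n m : ℕ} {A : Set (Perm (Fin n))}
    {P : Subgroup (Perm (Fin n)) → Perm (Fin n) → Prop}
    (hP : ∀ k, m ≤ k → k < n → ∀ a, a ∈ below n (k + 1) → P (below n k) a)
    (hA : ∀ k, m ≤ k → k < n → ∃ a ∈ A, a ∈ below n (k + 1) ∧ a ∉ below n k) :
    ∀ k, m ≤ k → k ≤ n → Tower A P (below n m) (below n k) := by
  intro k hk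
  induction k, hk using Nat.le_induction with
  | base => exact fun _ => Tower.base
  | succ k hmk ih =>
    intro hk
    refine Tower.full (ih (by omega)) (below_mono (Nat.le_succ k)) ?_ ?_
    · intro g hg hgk
      obtain ⟨a, ha, hak, hak'⟩ := hA k hmk (by omega)
      obtain ⟨σ, h1, τ, h2, h3⟩ := full_below (by omega) hak hak' hg hgk
      exact ⟨σ, h1, a, ha, τ, h2, h3⟩
    · intro a _ hak _
      exact hP k hmk (by omega) a hak

/-- Hamilton-connected Cayley graphs of symmetric groups -/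
theorem sym_connected {n m : ℕ} {A : Set (Perm (Fin n))} (hs : ∀ a ∈ A, a⁻¹ ∈ A) (h4 : 4 ≤ m)
    (hmn : m ≤ n) (hH : HamConnected A (below n m))
    (hA : ∀ k, m ≤ k → k < n → ∃ a ∈ A, a ∈ below n (k + 1) ∧ a ∉ below n k) :
    HamConnected A ⊤ := by
  classical
  have hT : Tower A Wide (below n m) (below n n) :=
    tower_below (fun k hk hkn a ha => wide_below (by omega) hkn ha) hA n hmn le_rfl
  rw [below_top] at hT
  refine tower_connected hs ?_ hH hT
  have h1 : ({1, swap ⟨0, by omega⟩ ⟨1, by omega⟩, swap ⟨0, by omega⟩ ⟨2, by omega⟩} :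
      Set (Perm (Fin n))) ⊆ below n m := by
    rintro s (rfl | rfl | rfl)
    · exact one_mem _
    · exact swap_below (show 0 < m by omega) (show 1 < m by omega)
    · exact swap_below (show 0 < m by omega) (show 2 < m by omega)
  have h2 : ({1, swap ⟨0, by omega⟩ ⟨1, by omega⟩, swap ⟨0, by omega⟩ ⟨2, by omega⟩} :
      Set (Perm (Fin n))).ncard = 3 := by
    rw [Set.ncard_eq_three]
    refine ⟨_, _, _, ?_, ?_, ?_, rfl⟩
    · intro h
      have := congrArg (fun σ : Perm (Fin n) => (σ ⟨0, by omega⟩).val) h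
      simp at this
    · intro h
      have := congrArg (fun σ : Perm (Fin n) => (σ ⟨0, by omega⟩).val) h
      simp at this
    · intro h
      have := congrArg (fun σ : Perm (Fin n) => (σ ⟨0, by omega⟩).val) h
      simp at this
  have h3 : ((below n m : Subgroup (Perm (Fin n))) : Set (Perm (Fin n))).ncard =
    Nat.card (below n m) := rfl
  rw [← h3, ← h2]
  exact Set.ncard_le_ncard h1 (Set.toFinite _)

/-- Hamilton-laceable Cayley graphs of symmetric groups -/
theorem sym_laceable {n m : ℕ} {A : Set (Perm (Fin n))} (hs : ∀ a ∈ A, a⁻¹ ∈ A)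
    (hodd : ∀ a ∈ A, Perm.sign a = -1) (h3 : 3 ≤ m)
    (hmn : m ≤ n) (hH : Laceable A Perm.sign (below n m))
    (hA : ∀ k, m ≤ k → k < n → ∃ a ∈ A, a ∈ below n (k + 1) ∧ a ∉ below n k) :
    Laceable A Perm.sign (⊤ : Subgroup (Perm (Fin n))) := by
  classical
  have hT : Tower A (Mixed Perm.sign) (below n m) (below n n) :=
    tower_below (fun k hk hkn a ha => mixed_below (by omega) hkn ha) hA n hmn le_rfl
  rw [below_top] at hT
  refine tower_laceable hs hodd ?_ ?_ hH hT
  · have h1 : ({1, swap ⟨0, by omega⟩ ⟨1, by omega⟩, swap ⟨0, by omega⟩ ⟨2, by omega⟩} :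
        Set (Perm (Fin n))) ⊆ below n m := by
      rintro s (rfl | rfl | rfl)
      · exact one_mem _
      · exact swap_below (show 0 < m by omega) (show 1 < m by omega)
      · exact swap_below (show 0 < m by omega) (show 2 < m by omega)
    have h2 : ({1, swap ⟨0, by omega⟩ ⟨1, by omega⟩, swap ⟨0, by omega⟩ ⟨2, by omega⟩} :
        Set (Perm (Fin n))).ncard = 3 := by
      rw [Set.ncard_eq_three]
      refine ⟨_, _, _, ?_, ?_, ?_, rfl⟩
      · intro h
        have := congrArg (fun σ : Perm (Fin n) => (σ ⟨0, by omega⟩).val) h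
        simp at this
      · intro h
        have := congrArg (fun σ : Perm (Fin n) => (σ ⟨0, by omega⟩).val) h
        simp at this
      · intro h
        have := congrArg (fun σ : Perm (Fin n) => (σ ⟨0, by omega⟩).val) h
        simp at this
    have h3 : ((below n m : Subgroup (Perm (Fin n))) : Set (Perm (Fin n))).ncard =
      Nat.card (below n m) := rfl
    rw [← h3, ← h2]
    exact Set.ncard_le_ncard h1 (Set.toFinite _)
  · refine ⟨swap ⟨0, by omega⟩ ⟨1, by omega⟩,
      swap_below (show 0 < m by omega) (show 1 < m by omega), Perm.sign_swap ?_⟩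
    intro h
    have := congrArg Fin.val h
    simp at this

end Pool.Agent.Helper43.TW
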