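import Pool.Agent.Helper43.TW.Apply

/-!
# Bases and tops of towers
-/

set_option autoImplicit false

namespace Pool.Agent.Helper43.TW

open Pool.Agent.Helper43.CQ Q238.RS Pool.Agent.Q112.CH

variable {G : Type*} [Group G]

/-- the stabiliser of two cosets -/
theorem inter_large [Finite G] {K : Subgroup G} {a : G} (ha : a ∉ K) :
    Nat.card K ≤ {s | s ∈ K ∧ a⁻¹ * s * a ∈ K}.ncard * (K.index - 1) := by
  classical
  have := Fintype.ofFinite G
  have := Fintype.ofFinite (G ⧸ K)
  set s : Finset G := (K : Set G).toFinset with hs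
  set f : G → G ⧸ K := fun k => QuotientGroup.mk (k * a) with hf
  have hmem : ∀ v, v ∈ s ↔ v ∈ K := fun v => by rw [hs, Set.mem_toFinset]; rfl
  have hcard : s.card = Nat.card K := by
    have h1 : (K : Set G).ncard = Nat.card K := rfl
    rw [← h1, Set.ncard_eq_toFinset_card']
  have h1 : s.card ≤ {s | s ∈ K ∧ a⁻¹ * s * a ∈ K}.ncard * (s.image f).card := by
    refine Finset.card_le_mul_card_image s _ ?_
    intro C hC
    obtain ⟨k₀, hk₀, rfl⟩ := Finset.mem_image.1 hC
    rw [hmem] at hk₀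
    rw [← Set.ncard_coe_finset]
    refine Set.ncard_le_ncard_of_injOn (fun k => k₀⁻¹ * k) ?_ ?_ (Set.toFinite _)
    · intro k hk
      have hk' : k ∈ s ∧ f k = f k₀ := Finset.mem_filter.1 hk
      rw [hmem] at hk'
      refine ⟨K.mul_mem (K.inv_mem hk₀) hk'.1, ?_⟩
      have h2 : (QuotientGroup.mk (k₀ * a) : G ⧸ K) = QuotientGroup.mk (k * a) := hk'.2.symm
      rw [QuotientGroup.eq] at h2
      have h3 : a⁻¹ * (k₀⁻¹ * k) * a = (k₀ * a)⁻¹ * (k * a) := by group
      show a⁻¹ * (k₀⁻¹ * k) * a ∈ K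
      rw [h3]
      exact h2
    · intro k _ k' _ h
      exact mul_left_cancel h
  have h2 : (s.image f).card ≤ K.index - 1 := by
    have h3 : s.image f ⊆ Finset.univ.erase (QuotientGroup.mk 1) := by
      intro C hC
      obtain ⟨k, hk, rfl⟩ := Finset.mem_image.1 hC
      rw [hmem] at hk
      refine Finset.mem_erase.2 ⟨fun h => ha ?_, Finset.mem_univ _⟩
      have h4 : (QuotientGroup.mk (k * a) : G ⧸ K) = QuotientGroup.mk 1 := h
      rw [eq_comm, QuotientGroup.eq, inv_one, one_mul] at h4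
      have := K.mul_mem (K.inv_mem hk) h4
      rwa [inv_mul_cancel_left] at this
    have h4 := Finset.card_le_card h3
    rw [Finset.card_erase_of_mem (Finset.mem_univ _), Finset.card_univ,
      ← Nat.card_eq_fintype_card] at h4
    exact h4
  rw [← hcard]
  exact h1.trans (Nat.mul_le_mul_left _ h2)

theorem wide_of_index [Finite G] {K : Subgroup G} (h : 2 * (K.index - 1) < Nat.card K) {a : G}
    (ha : a ∉ K) : Wide K a := by
  have h1 := inter_large ha
  by_contra h2
  have h3 : {s | s ∈ K ∧ a⁻¹ * s * a ∈ K}.ncard ≤ 2 := by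
    have h4 : ¬ 3 ≤ {s | s ∈ K ∧ a⁻¹ * s * a ∈ K}.ncard := h2
    omega
  have h4 := Nat.mul_le_mul_right (K.index - 1) h3
  omega

/-- a subgroup of prime index has a cyclic supplement -/
theorem prime_supplement [Finite G] {K : Subgroup G} (hp : K.index.Prime) :
    ∃ g : G, ∀ x : G, ∃ m ∈ Subgroup.zpowers g, ∃ k ∈ K, m * k = x := by
  classical
  have := Fintype.ofFinite G
  have := Fintype.ofFinite (G ⧸ K)
  have hcard : Fintype.card (G ⧸ K) = K.index := by
    rw [← Nat.card_eq_fintype_card]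
    rfl
  set f := MulAction.toPermHom G (G ⧸ K) with hf
  have hker : f.ker ≤ K := by
    intro x hx
    have h1 : f x (QuotientGroup.mk 1 : G ⧸ K) = QuotientGroup.mk 1 := by
      rw [MonoidHom.mem_ker.1 hx]
      rfl
    have h2 : (QuotientGroup.mk (x * 1) : G ⧸ K) = QuotientGroup.mk 1 := h1
    rw [mul_one, eq_comm, QuotientGroup.eq, inv_one, one_mul] at h2
    exact h2
  have hdvd : K.index ∣ Nat.card f.range := by
    rw [← Subgroup.index_ker]
    exact Subgroup.index_dvd_of_le hker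
  have : Fact K.index.Prime := ⟨hp⟩
  obtain ⟨⟨σ, g, rfl⟩, hσ⟩ := exists_prime_orderOf_dvd_card' K.index hdvd
  rw [← Subgroup.orderOf_coe] at hσ
  have hσ' : orderOf (f g) = K.index := hσ
  have hcyc : (f g).IsCycle := Equiv.Perm.isCycle_of_prime_order'' (by rw [hcard]; exact hp)
    (by rw [hcard]; exact hσ')
  have hsupp : (f g).support = Finset.univ := by
    apply Finset.eq_univ_of_card
    rw [hcard, ← hσ', hcyc.orderOf]
  refine ⟨g, fun x => ?_⟩
  have h1 : (f g).SameCycle (QuotientGroup.mk 1 : G ⧸ K) (QuotientGroup.mk x) := by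
    refine hcyc.sameCycle ?_ ?_
    · rw [← Equiv.Perm.mem_support, hsupp]
      exact Finset.mem_univ _
    · rw [← Equiv.Perm.mem_support, hsupp]
      exact Finset.mem_univ _
  obtain ⟨n, hn⟩ := h1
  have h2 : (QuotientGroup.mk (g ^ n) : G ⧸ K) = QuotientGroup.mk x := by
    rw [← hn, ← map_zpow]
    show _ = (QuotientGroup.mk (g ^ n * 1) : G ⧸ K)
    rw [mul_one]
  rw [QuotientGroup.eq] at h2
  exact ⟨g ^ n, Subgroup.zpow_mem_zpowers g n, _, h2, mul_inv_cancel_left _ _⟩

/-- abelian bases: all ends that are products of an odd number of generators -/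
theorem abelian_base [Finite G] {A : Set G} (hs : ∀ a ∈ A, a⁻¹ ∈ A) {H : Subgroup G}
    (hc : ∀ x ∈ H, ∀ y ∈ H, x * y = y * x) (hgen : Subgroup.closure (A ∩ H) = H)
    (h3 : 3 ≤ ((A ∩ H) \ {1}).ncard) :
    (Odd (Nat.card H) → Good A (E1 G) H) ∧
      ∀ χ : G →* ℤˣ, (∀ a ∈ A, χ a = -1) → Good A (E2 χ) H := by
  classical
  let _ : CommGroup H := { (inferInstance : Group H) with
    mul_comm := fun x y => Subtype.ext (hc x x.2 y y.2) }
  set B : Set H := {b | (b : G) ∈ A} with hB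
  have hBinv : ∀ b ∈ B, b⁻¹ ∈ B := fun b hb => hs _ hb
  have hBgen : Subgroup.closure B = ⊤ := closure_sub hgen
  have himage : (H.subtype) '' B = A ∩ H := by
    ext z
    constructor
    · rintro ⟨b, hb, rfl⟩
      exact ⟨hb, b.2⟩
    · rintro ⟨h1, h2⟩
      exact ⟨⟨z, h2⟩, h1, rfl⟩
  have hB3 : 3 ≤ (B \ {1}).ncard := by
    have h1 : (H.subtype) '' (B \ {1}) = (A ∩ H) \ {1} := by
      rw [Set.image_sdiff H.subtype_injective, himage, Set.image_singleton]
      rfl
    rw [← Set.ncard_image_of_injective _ H.subtype_injective, h1]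
    exact h3
  obtain ⟨B₀, h1, h2, h4, ⟨b0, hb0⟩, h6, h7⟩ := exists_good hBinv hBgen hB3
  have hwd : ∀ y : H, Wd B₀ 0 y ∨ Wd B₀ 1 y := fun y =>
    exists_wd h2 (by rw [h6]; exact Subgroup.mem_top y)
  have hfin : ∀ y : H, y ≠ 1 → Wd B₀ 1 y → HP (cadj A) (H : Set G) 1 (y : G) := by
    intro y hy hw
    have h8 := h7 y hy hw
    rw [h6] at h8
    exact HP_up (h8.mono fun a _ b _ hab => h1 hab)
  constructor
  · intro hodd y hy hy1
    have hw1 : Wd B₀ 1 (1 : H) := by
      have h8 := (Wd.of_mem hb0).zpow h2 (Nat.card H : ℤ)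
      rw [zpow_natCast, pow_card_eq_one'] at h8
      obtain ⟨m, hm⟩ := hodd
      exact h8.congr (by rw [hm]; push_cast; omega)
    refine hfin ⟨y, hy⟩ (fun h => hy1 (congrArg Subtype.val h)) ?_
    rcases hwd ⟨y, hy⟩ with h | h
    · have h9 := h.mul hw1
      rw [mul_one] at h9
      exact h9.congr (by norm_num)
    · exact h
  · intro χ hχ y hy hy1
    have hχy : χ y = -1 := hy1
    have hne : y ≠ 1 := by
      rintro rfl
      rw [map_one] at hχy
      revert hχy
      decide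
    refine hfin ⟨y, hy⟩ (fun h => hne (congrArg Subtype.val h)) ?_
    rcases hwd ⟨y, hy⟩ with h | h
    · exfalso
      obtain ⟨l, hl1, hl2, hl3⟩ := h
      have key : ∀ l : List H, (∀ b ∈ l, b ∈ B₀) → χ ((l.prod : H) : G) = (-1) ^ l.length := by
        intro l
        induction l with
        | nil => intro _; simp
        | cons b l ih =>
          intro hl
          rw [List.prod_cons, Subgroup.coe_mul, map_mul,
            ih fun c hc => hl c (List.mem_cons_of_mem _ hc), List.length_cons, pow_succ', 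
            hχ b (h1 (hl b List.mem_cons_self))]
      have h8 := key l hl1
      rw [hl2] at h8
      have h9 : Even l.length := by
        rw [Nat.even_iff]
        omega
      rw [h9.neg_one_pow] at h8
      have h10 : χ y = 1 := h8
      rw [hχy] at h10
      revert h10
      decide
    · exact h

/-- dense bases -/
theorem dense_base [Finite G] {A : Set G} (hs : ∀ a ∈ A, a⁻¹ ∈ A) {H : Subgroup G}
    (hd : Nat.card H + 1 ≤ 2 * ((A ∩ H) \ {1}).ncard) : Good A (E1 G) H := by
  set B : Set G := (A ∩ H) \ {1} with hB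
  have hBN : ∀ b ∈ B, b ∈ H := fun b hb => hb.1.2
  have hBinv : ∀ b ∈ B, b⁻¹ ∈ B := by
    rintro b ⟨⟨h1, h2⟩, h4⟩
    exact ⟨⟨hs b h1, inv_mem h2⟩, fun h => h4 (inv_eq_one.1 h)⟩
  have hB1 : (1 : G) ∉ B := fun h => h.2 rfl
  intro y hy hy1
  obtain ⟨l, h4, h5, h6, h7⟩ := ore_list hBN hBinv hB1 hd hy hy1
  obtain ⟨k, hk1, hk2, hk3, hk4⟩ := hpath_of_list hBN h4 h5 h6 h7
  exact HP_of_perm hk1 hy hk3 fun z hz hzy => (hk4 z hz hzy).1.1

/-- a Hamiltonian path from `1` to `a⁻¹` closes up -/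
theorem hcyc_of_good [Finite G] {A E : Set G} (hs : ∀ a ∈ A, a⁻¹ ∈ A) (h : Good A E ⊤) {a : G}
    (ha : a ∈ A) (haE : a⁻¹ ∈ E) : HCyc A (Set.univ : Set G) := by
  have h1 := h a⁻¹ (Subgroup.mem_top _) haE
  rw [Subgroup.coe_top] at h1
  obtain ⟨f, hf1, hf2, hf3, hf4⟩ := perm_of_HP h1
  refine ⟨f, hf1, hf2, fun z hz => ?_⟩
  by_cases hz1 : z = a⁻¹
  · rw [hz1, hf3, inv_inv, mul_one]
    exact ha
  · exact hf4 z hz hz1

end Pool.Agent.Helper43.TW
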